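import Pool.Agent.Q43.PD.Occ

/-!
# Averages over inflation words and the limit frequencies
-/

set_option autoImplicit false

namespace Q43.PD

open Finset Filter Topology

/-- The average of `f` over `θ^r(c)`. -/
noncomputable def av (r : ℕ) (c : Bool) (f : Word → ℝ) : ℝ := (∑ u ∈ P r c, f u) / N r c

theorem Npos (n : ℕ) (c : Bool) : (0 : ℝ) < N n c := by exact_mod_cast N_pos n c

theorem av_zero (c : Bool) (f : Word → ℝ) : av 0 c f = f [c] := by simp [av, P, N]

theorem av_const (r : ℕ) (c : Bool) (x : ℝ) : av r c (fun _ => x) = x := by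
  rw [av, sum_const, card_P, nsmul_eq_mul]
  have := Npos r c
  field_simp

theorem av_mono {r : ℕ} {c : Bool} {f g : Word → ℝ} (h : ∀ u ∈ P r c, f u ≤ g u) :
    av r c f ≤ av r c g := by
  rw [av, av]
  exact div_le_div_of_nonneg_right (sum_le_sum h) (Npos r c).le

theorem av_add (r : ℕ) (c : Bool) (f g : Word → ℝ) :
    av r c (fun u => f u + g u) = av r c f + av r c g := by
  rw [av, av, av, sum_add_distrib, add_div]

theorem av_mul_left (r : ℕ) (c : Bool) (x : ℝ) (f : Word → ℝ) :
    av r c (fun u => x * f u) = x * av r c f := by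
  rw [av, av, ← mul_sum, mul_div_assoc]

theorem av_mul_right (r : ℕ) (c : Bool) (x : ℝ) (f : Word → ℝ) :
    av r c (fun u => f u * x) = av r c f * x := by
  rw [av, av, ← sum_mul, div_mul_eq_mul_div]

theorem av_nonneg {r : ℕ} {c : Bool} {f : Word → ℝ} (h : ∀ u ∈ P r c, 0 ≤ f u) : 0 ≤ av r c f :=
  div_nonneg (sum_nonneg h) (Npos r c).le

theorem av_sum {ι : Type*} (s : Finset ι) (r : ℕ) (c : Bool) (f : ι → Word → ℝ) :
    av r c (fun u => ∑ i ∈ s, f i u) = ∑ i ∈ s, av r c (f i) := by
  simp only [av]
  rw [sum_comm, sum_div]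

theorem av_succ_true (r : ℕ) (f : Word → ℝ) : av (r + 1) true f =
    (av r true (fun a => av r false (fun b => f (a ++ b))) +
      av r false (fun a => av r true (fun b => f (a ++ b)))) / 2 := by
  simp only [av]
  rw [sum_P_true, N]
  have h1 := Npos r true
  have h2 := Npos r false
  rw [← sum_div, ← sum_div]
  push_cast
  field_simp

theorem av_succ_false (r : ℕ) (f : Word → ℝ) : av (r + 1) false f =
    av r true (fun a => av r true (fun b => f (a ++ b))) := by
  simp only [av]
  rw [sum_P_false, N]
  have h1 := Npos r true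
  rw [← sum_div]
  push_cast
  field_simp

theorem av_prod (r : ℕ) (c d : Bool) (f g : Word → ℝ) :
    av r c (fun a => av r d (fun b => f a * g b)) = av r c f * av r d g := by
  simp_rw [av_mul_left]
  rw [av_mul_right]

theorem av_two (r : ℕ) (c d : Bool) (f g : Word → ℝ) :
    av r c (fun a => av r d (fun b => f a + g b)) = av r c f + av r d g := by
  simp_rw [av_add]
  rw [av_const]
  congr 1
  simp_rw [av_const]

/-! ### mean number of occurrences -/

noncomputable def m (v : Word) (r : ℕ) (c : Bool) : ℝ := av r c fun u => (occ v u : ℝ)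

theorem two_le (v : Word) (r : ℕ) (c d : Bool) :
    av r c (fun a => av r d (fun b => (occ v (a ++ b) : ℝ))) ≤ m v r c + m v r d + v.length := by
  have h : av r c (fun a => av r d (fun b => (occ v (a ++ b) : ℝ))) ≤
      av r c (fun a => av r d (fun b => (occ v a : ℝ) + ((occ v b : ℝ) + v.length))) := by
    apply av_mono
    intro a _
    apply av_mono
    intro b _
    have := occ_append_le v a b
    have h2 : (occ v (a ++ b) : ℝ) ≤ occ v a + occ v b + v.length := by exact_mod_cast this
    linarith
  refine h.trans (le_of_eq ?_)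
  rw [av_two, av_add, av_const]
  rw [m, m]
  ring

theorem two_ge (v : Word) (r : ℕ) (c d : Bool) :
    m v r c + m v r d ≤ av r c (fun a => av r d (fun b => (occ v (a ++ b) : ℝ))) := by
  rw [m, m, ← av_two]
  apply av_mono
  intro a _
  apply av_mono
  intro b _
  exact_mod_cast occ_append_ge v a b

theorem m_succ_true (v : Word) (r : ℕ) : m v r true + m v r false ≤ m v (r + 1) true ∧
    m v (r + 1) true ≤ m v r true + m v r false + v.length := by
  have e : m v (r + 1) true = _ := av_succ_true r _
  rw [e]
  have h1 := two_le v r true false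
  have h2 := two_le v r false true
  have h3 := two_ge v r true false
  have h4 := two_ge v r false true
  constructor <;> linarith

theorem m_succ_false (v : Word) (r : ℕ) : m v r true + m v r true ≤ m v (r + 1) false ∧
    m v (r + 1) false ≤ m v r true + m v r true + v.length := by
  have h1 := two_le v r true true
  have h3 := two_ge v r true true
  constructor
  · rw [m, m, av_succ_false]; exact h3
  · rw [m, av_succ_false]; exact h1

theorem m_nonneg (v : Word) (r : ℕ) (c : Bool) : 0 ≤ m v r c := av_nonneg fun _ _ => by positivity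

theorem m_le (v : Word) (r : ℕ) (c : Bool) : m v r c ≤ 2 ^ r := by
  have h : m v r c ≤ av r c (fun _ => (2 : ℝ) ^ r) := by
    apply av_mono
    intro u hu
    have := occ_le v u
    rw [length_P hu] at this
    exact_mod_cast this
  rwa [av_const] at h

noncomputable def mx (v : Word) (r : ℕ) : ℝ := max (m v r true) (m v r false)

theorem diff_le (v : Word) (r : ℕ) : |m v r true - m v r false| ≤ 2 * v.length * r + 1 := by
  induction r with
  | zero =>
    have h1 := m_nonneg v 0 true
    have h2 := m_nonneg v 0 false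
    have h3 := m_le v 0 true
    have h4 := m_le v 0 false
    rw [pow_zero] at h3 h4
    rw [abs_le]
    constructor <;> push_cast <;> linarith
  | succ r ih =>
    obtain ⟨h1, h2⟩ := m_succ_true v r
    obtain ⟨h3, h4⟩ := m_succ_false v r
    rw [abs_le] at ih ⊢
    push_cast
    have : (0 : ℝ) ≤ v.length := by positivity
    constructor <;> linarith [ih.1, ih.2]

/-- The decreasing upper bounds of the limit frequency. -/
noncomputable def xs (v : Word) (r : ℕ) : ℝ := (mx v r + v.length) / 2 ^ r

theorem xs_antitone (v : Word) : Antitone (xs v) := by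
  apply antitone_nat_of_succ_le
  intro r
  rw [xs, xs, div_le_div_iff₀ (by positivity) (by positivity), pow_succ]
  have h1 := (m_succ_true v r).2
  have h2 := (m_succ_false v r).2
  have h3 : mx v (r + 1) ≤ 2 * mx v r + v.length := by
    rw [mx, mx]
    apply max_le
    · have := le_max_left (m v r true) (m v r false)
      have := le_max_right (m v r true) (m v r false)
      linarith
    · have := le_max_left (m v r true) (m v r false)
      linarith
  have h4 : (0 : ℝ) < 2 ^ r := by positivity
  nlinarith

theorem xs_nonneg (v : Word) (r : ℕ) : 0 ≤ xs v r := by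
  rw [xs]
  have := m_nonneg v r true
  have h : 0 ≤ mx v r := this.trans (le_max_left _ _)
  positivity

/-- The limit frequency. -/
noncomputable def Lf (v : Word) : ℝ := ⨅ r, xs v r

theorem xs_tendsto (v : Word) : Tendsto (xs v) atTop (𝓝 (Lf v)) :=
  tendsto_atTop_ciInf (xs_antitone v) ⟨0, by rintro _ ⟨r, rfl⟩; exact xs_nonneg v r⟩

theorem err_tendsto (v : Word) :
    Tendsto (fun r : ℕ => (2 * v.length * r + 1 + v.length : ℝ) / 2 ^ r) atTop (𝓝 0) := by
  have h1 : Tendsto (fun r : ℕ => (r : ℝ) ^ 1 * (1 / 2 : ℝ) ^ r) atTop (𝓝 0) :=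
    tendsto_pow_const_mul_const_pow_of_lt_one 1 (by norm_num) (by norm_num)
  have h2 : Tendsto (fun r : ℕ => (1 / 2 : ℝ) ^ r) atTop (𝓝 0) :=
    tendsto_pow_atTop_nhds_zero_of_lt_one (by norm_num) (by norm_num)
  have h3 := (h1.const_mul (2 * v.length : ℝ)).add (h2.const_mul (1 + v.length : ℝ))
  rw [mul_zero, mul_zero, add_zero] at h3
  refine h3.congr fun r => ?_
  rw [one_div, inv_pow, pow_one]
  field_simp
  ring

theorem m_tendsto (v : Word) (c : Bool) :
    Tendsto (fun r : ℕ => m v r c / 2 ^ r) atTop (𝓝 (Lf v)) := by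
  have h1 := (xs_tendsto v).sub (err_tendsto v)
  rw [sub_zero] at h1
  refine tendsto_of_tendsto_of_tendsto_of_le_of_le h1 (xs_tendsto v) ?_ ?_
  · intro r
    have h4 : (0 : ℝ) < 2 ^ r := by positivity
    have h5 := diff_le v r
    rw [abs_le] at h5
    simp only [xs]
    rw [← sub_div]
    apply div_le_div_of_nonneg_right _ h4.le
    have h6 : mx v r ≤ m v r c + (2 * v.length * r + 1) := by
      rw [mx]
      cases c
      · exact max_le (by linarith [h5.2]) (by linarith [h5.1, h5.2])
      · exact max_le (by linarith [h5.1, h5.2]) (by linarith [h5.1])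
    linarith
  · intro r
    have h4 : (0 : ℝ) < 2 ^ r := by positivity
    simp only [xs]
    apply div_le_div_of_nonneg_right _ h4.le
    have h6 : m v r c ≤ mx v r := by
      rw [mx]
      cases c
      · exact le_max_right _ _
      · exact le_max_left _ _
    have : (0 : ℝ) ≤ v.length := by positivity
    linarith

theorem Lf_nonneg (v : Word) : 0 ≤ Lf v :=
  ge_of_tendsto' (xs_tendsto v) (xs_nonneg v)

theorem sum_Lf_le (k : ℕ) : ∑ v : Fin k → Bool, Lf (List.ofFn v) ≤ 1 := by
  have h1 : Tendsto (fun r : ℕ => ∑ v : Fin k → Bool, m (List.ofFn v) r true / 2 ^ r) atTop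
      (𝓝 (∑ v : Fin k → Bool, Lf (List.ofFn v))) :=
    tendsto_finsetSum _ fun v _ => m_tendsto _ true
  refine le_of_tendsto' h1 fun r => ?_
  rw [← sum_div, div_le_one (by positivity)]
  have h2 : ∑ v : Fin k → Bool, m (List.ofFn v) r true =
      av r true (fun u => ∑ v : Fin k → Bool, (occ (List.ofFn v) u : ℝ)) := by
    rw [av_sum]; rfl
  rw [h2]
  have h3 : av r true (fun u => ∑ v : Fin k → Bool, (occ (List.ofFn v) u : ℝ)) ≤
      av r true (fun _ => (2 : ℝ) ^ r) := by
    apply av_mono
    intro u hu
    have := sum_occ_le k u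
    rw [length_P hu] at this
    exact_mod_cast this
  rwa [av_const] at h3

end Q43.PD
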