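import Pool.Agent.Q43.PD.Uniq

/-!
# Upper bounds of the limit frequencies
-/

set_option autoImplicit false
set_option linter.unusedVariables false

namespace Q43.PD

open Finset Filter Topology MeasureTheory

open Classical in
/-- The probability of an occurrence at position `i`. -/
noncomputable def pr (v : Word) (i n : ℕ) (c : Bool) : ℝ :=
  av n c fun u => if v <+: u.drop i then 1 else 0

theorem pr_nonneg (v : Word) (i n : ℕ) (c : Bool) : 0 ≤ pr v i n c :=
  av_nonneg fun u _ => by split_ifs <;> norm_num

theorem pr_le_one (v : Word) (i n : ℕ) (c : Bool) : pr v i n c ≤ 1 := by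
  classical
  have h : pr v i n c ≤ av n c (fun _ => 1) := by
    apply av_mono
    intro u _
    split_ifs <;> norm_num
  rwa [av_const] at h

/-- The number of aligned blocks of length `q` in `[i, i + l)`. -/
def bl (q i l : ℕ) : ℕ := (i + l) / q - (i + q - 1) / q

/-- Two halves. -/
theorem half {n : ℕ} {i : ℕ} {v : Word} {x : ℝ} {q : ℕ} (hx0 : 0 ≤ x) (hq : 0 < q)
    (hdvd : q ∣ 2 ^ n) (hi : i + v.length ≤ 2 ^ (n + 1))
    (ih : ∀ (c : Bool) (i : ℕ) (v : Word), i + v.length ≤ 2 ^ n →
      pr v i n c ≤ x ^ bl q i v.length) (c d : Bool) :
    av n c (fun a => av n d (fun b => (open Classical in if v <+: (a ++ b).drop i then 1 else 0))) ≤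
      x ^ bl q i v.length := by
  classical
  rcases le_or_gt (i + v.length) (2 ^ n) with h1 | h1
  · -- the window lies in the left half
    refine le_trans ?_ (ih c i v h1)
    rw [pr]
    apply av_mono
    intro a ha
    have hla := length_P ha
    have h2 : av n d (fun b => if v <+: (a ++ b).drop i then (1 : ℝ) else 0) ≤
        av n d (fun _ => if v <+: a.drop i then (1 : ℝ) else 0) := by
      apply av_mono
      intro b _
      by_cases h3 : v <+: (a ++ b).drop i
      · rw [List.drop_append_of_le_length (by omega)] at h3
        have h4 := List.prefix_of_prefix_length_le h3 (List.prefix_append _ _)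
          (by rw [List.length_drop]; omega)
        rw [if_pos h4]
        split_ifs <;> norm_num
      · rw [if_neg h3]
        split_ifs <;> norm_num
    rwa [av_const] at h2
  · rcases le_or_gt (2 ^ n) i with h2 | h2
    · -- the window lies in the right half
      have h5 : bl q (i - 2 ^ n) v.length = bl q i v.length := by
        obtain ⟨k, hk⟩ := hdvd
        rw [bl, bl, hk]
        rw [hk] at h2
        obtain ⟨t, rfl⟩ := Nat.exists_eq_add_of_le h2
        have e1 : q * k + t + v.length = (t + v.length) + q * k := by ring
        have e2 : q * k + t + q - 1 = (t + q - 1) + q * k := by omega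
        rw [Nat.add_sub_cancel_left, e1, e2, Nat.add_mul_div_left _ _ hq,
          Nat.add_mul_div_left _ _ hq]
        omega
      rw [← h5]
      refine le_trans ?_ (ih d (i - 2 ^ n) v (by rw [pow_succ] at hi; omega))
      have h3 : av n c (fun a => av n d (fun b => if v <+: (a ++ b).drop i then (1 : ℝ) else 0)) ≤
          av n c (fun _ => pr v (i - 2 ^ n) n d) := by
        apply av_mono
        intro a ha
        have hla := length_P ha
        rw [pr]
        apply av_mono
        intro b _
        rw [List.drop_append, List.drop_eq_nil_of_le (as := a) (by omega), List.nil_append, hla]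
      rwa [av_const] at h3
    · -- the window meets both halves
      set k := 2 ^ n - i with hk
      have h3 : bl q i v.length = bl q i (v.take k).length + bl q 0 (v.drop k).length := by
        rw [List.length_take, List.length_drop, min_eq_left (by omega)]
        obtain ⟨t, ht⟩ := hdvd
        rw [bl, bl, bl]
        have e1 : i + k = q * t := by omega
        have e2 : (0 + q - 1) / q = 0 := Nat.div_eq_of_lt (by omega)
        have e3 : i + v.length = (v.length - k) + q * t := by omega
        rw [e1, e2, e3, Nat.add_mul_div_left _ _ hq, Nat.mul_div_cancel_left _ hq, zero_add]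
        have e4 : (i + q - 1) / q ≤ t := by
          rw [Nat.div_le_iff_le_mul_add_pred hq]
          omega
        generalize (v.length - k) / q = X at *
        generalize (i + q - 1) / q = C at *
        omega
      rw [h3, pow_add]
      have h4 := ih c i (v.take k) (by rw [List.length_take, min_eq_left (by omega)]; omega)
      have h5 := ih d 0 (v.drop k) (by rw [List.length_drop]; rw [pow_succ] at hi; omega)
      refine le_trans ?_ (mul_le_mul h4 h5 (pr_nonneg _ _ _ _) (pow_nonneg hx0 _))
      rw [pr, pr, ← av_prod]
      apply av_mono
      intro a ha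
      apply av_mono
      intro b _
      have hla := length_P ha
      by_cases h6 : v <+: (a ++ b).drop i
      · have h6' := h6
        rw [List.drop_append_of_le_length (by omega)] at h6'
        have hlen : (a.drop i).length = k := by rw [List.length_drop]; omega
        obtain ⟨t, ht⟩ := h6'
        have h7 : v.take k = a.drop i := by
          have h8 : (v ++ t).take k = (a.drop i ++ b).take k := by rw [ht]
          rw [List.take_append_of_le_length (by omega)] at h8
          rw [h8, ← hlen, List.take_left']
          rfl
        have h8 : v.drop k ++ t = b := by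
          have h9 : (v ++ t).drop k = (a.drop i ++ b).drop k := by rw [ht]
          rw [List.drop_append_of_le_length (by omega)] at h9
          rw [h9, ← hlen, List.drop_left']
          rfl
        have h9 : v.take k <+: a.drop i := by rw [h7]
        have h10 : v.drop k <+: b.drop 0 := by
          rw [List.drop_zero, ← h8]; exact List.prefix_append _ _
        rw [if_pos h6, if_pos h9, if_pos h10]
        norm_num
      · rw [if_neg h6]
        apply mul_nonneg <;> split_ifs <;> norm_num

theorem pr_le (R : ℕ) (n : ℕ) (hn : 2 * R ≤ n) (c : Bool) (i : ℕ) (v : Word)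
    (hi : i + v.length ≤ 2 ^ n) : pr v i n c ≤ ((1 : ℝ) / 2 ^ K R) ^ bl (2 ^ (2 * R)) i v.length := by
  classical
  induction n, hn using Nat.le_induction generalizing c i v with
  | base =>
    set q := 2 ^ (2 * R) with hq
    have hqpos : 0 < q := by positivity
    by_cases h : i = 0 ∧ v.length = q
    · obtain ⟨rfl, hv⟩ := h
      have h1 : bl q 0 v.length = 1 := by
        rw [bl, hv, zero_add, Nat.div_self hqpos, Nat.div_eq_of_lt (by omega)]
      rw [h1, pow_one, pr, av, N_even]
      push_cast
      apply div_le_div_of_nonneg_right _ (by positivity)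
      have h2 : ∑ u ∈ P (2 * R) c, (if v <+: u.drop 0 then (1 : ℝ) else 0) ≤
          ∑ u ∈ P (2 * R) c, (if u = v then (1 : ℝ) else 0) := by
        apply sum_le_sum
        intro u hu
        by_cases h3 : v <+: u.drop 0
        · rw [List.drop_zero] at h3
          have h4 := h3.eq_of_length (by rw [hv, length_P hu])
          rw [if_pos h4.symm]
          split_ifs <;> norm_num
        · rw [if_neg h3]
          split_ifs <;> norm_num
      refine h2.trans ?_
      rw [sum_ite_eq']
      split_ifs <;> norm_num
    · have h1 : bl q i v.length = 0 := by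
        rw [bl, Nat.sub_eq_zero_iff_le]
        rcases Nat.eq_zero_or_pos i with rfl | hi0
        · have : 0 + v.length < q := by
            have : v.length ≠ q := fun h' => h ⟨rfl, h'⟩
            omega
          rw [Nat.div_eq_of_lt this]
          exact Nat.zero_le _
        · calc (i + v.length) / q ≤ q / q := Nat.div_le_div_right hi
            _ ≤ (i + q - 1) / q := Nat.div_le_div_right (by omega)
      rw [h1, pow_zero]
      exact pr_le_one _ _ _ _
  | succ n hn ih =>
    set q := 2 ^ (2 * R) with hq
    have hqpos : 0 < q := by positivity
    have hdvd : q ∣ 2 ^ n := pow_dvd_pow 2 hn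
    have hx : (0 : ℝ) ≤ 1 / 2 ^ K R := by positivity
    have key := half (x := 1 / 2 ^ K R) hx hqpos hdvd hi ih
    cases c
    · rw [pr, av_succ_false]
      exact key true true
    · rw [pr, av_succ_true]
      have h1 := key true false
      have h2 := key false true
      linarith

theorem bl_ge (q : ℕ) (hq : 0 < q) (i l : ℕ) : l / q - 1 ≤ bl q i l := by
  rw [bl]
  have h1 : i / q + l / q ≤ (i + l) / q := Nat.div_add_div_le_add_div
  have h2 : (i + q - 1) / q ≤ i / q + 1 := by
    have : (i + q - 1) / q ≤ (i + q) / q := Nat.div_le_div_right (by omega)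
    rwa [Nat.add_div_right _ hq] at this
  omega

theorem m_le_pow (v : Word) (R n : ℕ) (hn : 2 * R ≤ n) :
    m v n true ≤ 2 ^ n * ((1 : ℝ) / 2 ^ K R) ^ (v.length / 2 ^ (2 * R) - 1) := by
  classical
  set x : ℝ := 1 / 2 ^ K R with hx
  set q := 2 ^ (2 * R) with hq
  have hqpos : 0 < q := by positivity
  have hx0 : 0 ≤ x := by positivity
  have hx1 : x ≤ 1 := by
    rw [hx, div_le_one (by positivity)]
    exact one_le_pow₀ (by norm_num)
  have h1 : m v n true = ∑ i ∈ range (2 ^ n), pr v i n true := by
    rw [m]
    simp only [pr]
    rw [← av_sum, av, av]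
    congr 1
    apply sum_congr rfl
    intro u hu
    rw [occ_eq_sum, length_P hu]
    push_cast
    rfl
  rw [h1]
  calc ∑ i ∈ range (2 ^ n), pr v i n true ≤ ∑ i ∈ range (2 ^ n), x ^ (v.length / q - 1) := by
        apply sum_le_sum
        intro i hir
        rcases le_or_gt (i + v.length) (2 ^ n) with h2 | h2
        · exact (pr_le R n hn true i v h2).trans
            (pow_le_pow_of_le_one hx0 hx1 (bl_ge q hqpos i v.length))
        · have h3 : pr v i n true ≤ av n true (fun _ => 0) := by
            apply av_mono
            intro u hu
            rw [if_neg]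
            intro h4
            have h5 := h4.length_le
            rw [List.length_drop, length_P hu] at h5
            have h6 := mem_range.1 hir
            omega
          rw [av_const] at h3
          exact h3.trans (pow_nonneg hx0 _)
    _ = _ := by
        rw [sum_const, card_range, nsmul_eq_mul]
        push_cast
        rfl

theorem Lf_le_pow (v : Word) (R : ℕ) :
    Lf v ≤ ((1 : ℝ) / 2 ^ K R) ^ (v.length / 2 ^ (2 * R) - 1) := by
  refine le_of_tendsto (m_tendsto v true) ?_
  filter_upwards [eventually_ge_atTop (2 * R)] with n hn
  rw [div_le_iff₀ (by positivity), mul_comm]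
  exact m_le_pow v R n hn

/-- The limit frequency of a word which is not legal is zero. -/
theorem Lf_not_legal {v : Word} (h : ¬ Legal v) : Lf v = 0 := by
  have h1 : ∀ n, 1 ≤ n → m v n true = 0 := by
    intro n hn
    rw [m]
    have h2 : ∀ u ∈ P n true, (occ v u : ℝ) = 0 := by
      intro u hu
      have h3 : occ v u = 0 := by
        rw [occ, card_eq_zero, filter_eq_empty_iff]
        intro i _ hi
        exact h ⟨n, hn, true, u, mem_P.1 hu, hi.isInfix.trans (List.drop_suffix _ _).isInfix⟩
      rw [h3]; norm_num
    rw [av, sum_eq_zero h2, zero_div]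
  have h2 : Tendsto (fun r : ℕ => m v r true / 2 ^ r) atTop (𝓝 0) := by
    refine tendsto_const_nhds.congr' ?_
    filter_upwards [eventually_ge_atTop 1] with n hn
    rw [h1 n hn, zero_div]
  exact tendsto_nhds_unique (m_tendsto v true) h2

end Q43.PD
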