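import Mathlib

/-!
# The random period doubling subshift: definitions

The letter `a` is `true`, the letter `b` is `false`.
-/

set_option autoImplicit false

namespace Q43.PD

open MeasureTheory Filter Topology

/-- Finite words over the alphabet `{a, b}`; `true` is `a` and `false` is `b`. -/
abbrev Word := List Bool

/-- The set of the words obtained from a word by the random period doubling substitution,
`a ↦ ab` or `ba`, `b ↦ aa`, applied letter by letter. -/
def theta : Word → Set Word
  | [] => {[]}
  | true :: w => {x | ∃ u ∈ theta w, x = true :: false :: u ∨ x = false :: true :: u}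
  | false :: w => {x | ∃ u ∈ theta w, x = true :: true :: u}

/-- The set of the words obtained by `n` applications of the substitution. -/
def thetaN : ℕ → Word → Set Word
  | 0, w => {w}
  | n + 1, w => {u | ∃ v ∈ thetaN n w, u ∈ theta v}

/-- Legal words: the subwords of the words in `θ^n(c)`, `c` a letter and `n ≥ 1`. -/
def Legal (u : Word) : Prop := ∃ n : ℕ, 1 ≤ n ∧ ∃ c : Bool, ∃ v ∈ thetaN n [c], u <:+: v

/-- The word `x_i x_{i+1} … x_{i+n-1}`. -/
def word (x : ℤ → Bool) (i : ℤ) (n : ℕ) : Word := List.ofFn fun k : Fin n => x (i + (k : ℕ))

/-- The random substitution subshift. -/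
def X : Set (ℤ → Bool) := {x | ∀ (i : ℤ) (n : ℕ), Legal (word x i n)}

/-- The left shift. -/
def shift (x : ℤ → Bool) : ℤ → Bool := fun i => x (i + 1)

/-- `μ` is a shift-invariant Borel probability measure on `X`. -/
structure IsInv (μ : Measure (ℤ → Bool)) : Prop where
  prob : IsProbabilityMeasure μ
  supp : μ Xᶜ = 0
  inv : μ.map shift = μ

/-- The cylinder `[v]` of the word `v`, placed at position `0`. -/
def cyl (v : Word) : Set (ℤ → Bool) := {x | word x 0 v.length = v}

/-- The entropy of the distribution of the words of length `n`. -/
noncomputable def blockH (μ : Measure (ℤ → Bool)) (n : ℕ) : ℝ :=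
  ∑ w : Fin n → Bool, Real.negMulLog (μ.real (cyl (List.ofFn w)))

/-- The entropy of `μ` with respect to the shift, computed with the generating partition by the letter
at position `0`. (For a shift-invariant probability measure the sequence converges, and its limit is
the Kolmogorov-Sinai entropy.) -/
noncomputable def entropy (μ : Measure (ℤ → Bool)) : ℝ :=
  limsup (fun n : ℕ => blockH μ n / n) atTop

/-- The number of occurrences of `v` in `w`. -/
def occ (v w : Word) : ℕ := ((Finset.range w.length).filter fun i => v <+: w.drop i).card

/-- The expected value of `f` at a random image of a word under the substitution with probabilities: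
`a ↦ ab` and `a ↦ ba` with probability `1/2` each, `b ↦ aa`, independently for each letter. -/
noncomputable def mean1 : Word → (Word → ℝ) → ℝ
  | [], f => f []
  | true :: w, f =>
    (mean1 w (fun u => f (true :: false :: u)) + mean1 w (fun u => f (false :: true :: u))) / 2
  | false :: w, f => mean1 w fun u => f (true :: true :: u)

/-- The expected value of `f` at a random realisation of `θ_{1/2}^n(w)`. -/
noncomputable def mean : ℕ → Word → (Word → ℝ) → ℝ
  | 0, w, f => f w
  | n + 1, w, f => mean n w fun v => mean1 v f

/-- `μ` is the frequency measure `μ_{1/2}`: it is a shift-invariant probability measure on `X`, and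
whenever `W n` is a random realisation of `θ_{1/2}^n(a)` for every `n`, then for every word `v`, almost
surely, the number of occurrences of `v` in `W n` divided by `2 ^ n` tends to `μ [v]`. -/
structure IsFreqMeasure (μ : Measure (ℤ → Bool)) : Prop where
  inv : IsInv μ
  freq : ∀ (Ω : Type) [MeasurableSpace Ω] (ℙ : Measure Ω) [IsProbabilityMeasure ℙ]
    (W : ℕ → Ω → Word), (∀ n u, MeasurableSet (W n ⁻¹' {u})) →
    (∀ n u, ℙ.real (W n ⁻¹' {u}) = mean n [true] fun x => if x = u then 1 else 0) →
    ∀ v : Word, ∀ᵐ ω ∂ℙ, Tendsto (fun n => (occ v (W n ω) : ℝ) / 2 ^ n) atTop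
      (𝓝 (μ.real (cyl v)))

/-- `μ` is a measure of maximal entropy of `(X, S)`. -/
def IsMME (μ : Measure (ℤ → Bool)) : Prop := IsInv μ ∧ ∀ ν, IsInv ν → entropy ν ≤ entropy μ

end Q43.PD
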