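import Pool.Agent.Q43.PD.Cyl

/-!
# Existence of the frequency measure
-/

set_option autoImplicit false
set_option linter.unusedVariables false

namespace Q43.PD

open Finset Filter Topology MeasureTheory

/-- The periodic point of `u`, shifted by `i`. -/
def pt (M : ℕ) (u : Word) (i : ℕ) : ℤ → Bool := fun t => u.getD (((t + i) % (M : ℤ)).toNat) true

theorem shift_pt (M : ℕ) (u : Word) (i : ℕ) : shift (pt M u i) = pt M u (i + 1) := by
  funext t
  simp only [shift, pt]
  have : t + 1 + (i : ℤ) = t + ((i + 1 : ℕ) : ℤ) := by push_cast; ring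
  rw [this]

theorem pt_period (M : ℕ) (u : Word) : pt M u M = pt M u 0 := by
  funext t
  simp only [pt]
  rw [Int.add_emod_right]
  simp

theorem word_pt {M : ℕ} {u v : Word} (hu : u.length = M) {i : ℕ} (hi : i + v.length ≤ M) :
    word (pt M u i) 0 v.length = v ↔ v <+: u.drop i := by
  have h : word (pt M u i) 0 v.length = (u.drop i).take v.length := by
    apply List.ext_getElem
    · rw [length_word, List.length_take, List.length_drop, hu]
      omega
    · intro j h1 h2
      rw [length_word] at h1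
      simp only [word, List.getElem_ofFn, List.getElem_take, List.getElem_drop, pt]
      have h3 : (((0 : ℤ) + (j : ℕ) + (i : ℕ)) % (M : ℤ)).toNat = i + j := by
        rw [Int.emod_eq_of_lt (by omega) (by omega)]
        omega
      rw [h3, List.getD_eq_getElem]
  rw [h, List.prefix_iff_eq_take]
  exact eq_comm

/-- The approximating measures. -/
noncomputable def mu (n : ℕ) : Measure (ℤ → Bool) :=
  ENNReal.ofReal ((N n true * 2 ^ n : ℝ)⁻¹) •
    ∑ u ∈ P n true, ∑ i ∈ range (2 ^ n), Measure.dirac (pt (2 ^ n) u i)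

open Classical in
theorem mu_real (n : ℕ) {A : Set (ℤ → Bool)} (hA : MeasurableSet A) : (mu n).real A =
    av n true (fun u => ∑ i ∈ range (2 ^ n), if pt (2 ^ n) u i ∈ A then 1 else 0) / 2 ^ n := by
  have hN := Npos n true
  rw [mu, measureReal_def, Measure.smul_apply, smul_eq_mul, ENNReal.toReal_mul,
    ENNReal.toReal_ofReal (by positivity), Measure.finsetSum_apply]
  have h1 : ∀ u, (∑ i ∈ range (2 ^ n), (Measure.dirac (pt (2 ^ n) u i) : Measure (ℤ → Bool))) A =
      ENNReal.ofReal (∑ i ∈ range (2 ^ n), if pt (2 ^ n) u i ∈ A then 1 else 0) := by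
    intro u
    rw [Measure.finsetSum_apply, ENNReal.ofReal_sum_of_nonneg]
    · apply sum_congr rfl
      intro i _
      rw [Measure.dirac_apply' _ hA]
      by_cases h : pt (2 ^ n) u i ∈ A
      · rw [Set.indicator_of_mem h, if_pos h]; simp
      · rw [Set.indicator_of_notMem h, if_neg h]; simp
    · intro i _
      split_ifs <;> norm_num
  have h2 : ∀ u, (0 : ℝ) ≤ ∑ i ∈ range (2 ^ n), if pt (2 ^ n) u i ∈ A then 1 else 0 := by
    intro u
    apply sum_nonneg
    intro i _
    split_ifs <;> norm_num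
  rw [sum_congr rfl (fun u _ => h1 u), ← ENNReal.ofReal_sum_of_nonneg (fun u _ => h2 u),
    ENNReal.toReal_ofReal (sum_nonneg fun u _ => h2 u), av]
  field_simp

theorem mu_prob (n : ℕ) : IsProbabilityMeasure (mu n) := by
  constructor
  have h := mu_real n (A := Set.univ) MeasurableSet.univ
  simp only [Set.mem_univ, if_true, sum_const, card_range, nsmul_eq_mul, mul_one, av_const] at h
  rw [Nat.cast_pow, Nat.cast_ofNat, div_self (by positivity), measureReal_def,
    ENNReal.toReal_eq_one_iff] at h
  exact h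

theorem mu_inv (n : ℕ) : (mu n).map shift = mu n := by
  rw [mu, Measure.map_smul, Measure.map_finset_sum measurable_shift.aemeasurable]
  congr 1
  apply sum_congr rfl
  intro u _
  rw [Measure.map_finset_sum measurable_shift.aemeasurable]
  have h1 : ∀ i, Measure.map shift (Measure.dirac (pt (2 ^ n) u i)) =
      Measure.dirac (pt (2 ^ n) u (i + 1)) := by
    intro i
    rw [Measure.map_dirac' measurable_shift, shift_pt]
  rw [sum_congr rfl (fun i _ => h1 i)]
  obtain ⟨k, hk⟩ := Nat.exists_eq_succ_of_ne_zero (pow_ne_zero n (two_ne_zero : (2 : ℕ) ≠ 0))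
  have h2 := pt_period (2 ^ n) u
  rw [hk] at h2 ⊢
  rw [sum_range_succ, sum_range_succ', h2]

theorem mu_cyl (n : ℕ) (v : Word) :
    m v n true / 2 ^ n ≤ (mu n).real (cyl v) ∧
      (mu n).real (cyl v) ≤ m v n true / 2 ^ n + v.length / 2 ^ n := by
  classical
  have hcyl : MeasurableSet (cyl v) := measurable_word 0 v.length v
  rw [mu_real n hcyl, ← add_div]
  have hmem : ∀ u ∈ P n true, ∀ i, i + v.length ≤ 2 ^ n →
      (pt (2 ^ n) u i ∈ cyl v ↔ v <+: u.drop i) := by
    intro u hu i hi
    exact word_pt (length_P hu) hi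
  have hpos : (0 : ℝ) < 2 ^ n := by positivity
  constructor
  · apply div_le_div_of_nonneg_right _ hpos.le
    apply av_mono
    intro u hu
    rw [occ_eq_sum, length_P hu]
    push_cast
    apply sum_le_sum
    intro i hi
    by_cases h : v <+: u.drop i
    · have h2 := h.length_le
      rw [List.length_drop, length_P hu] at h2
      rw [mem_range] at hi
      rw [if_pos h, if_pos ((hmem u hu i (by omega)).2 h)]
    · rw [if_neg h]
      split_ifs <;> norm_num
  · apply div_le_div_of_nonneg_right _ hpos.le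
    have h1 : m v n true + v.length = av n true (fun u => (occ v u : ℝ) + v.length) := by
      rw [av_add, av_const, m]
    rw [h1]
    apply av_mono
    intro u hu
    rw [occ_eq_sum, length_P hu]
    have h2 : ∑ i ∈ range (2 ^ n), (if 2 ^ n < i + v.length then 1 else 0) ≤ v.length := by
      rw [← card_filter]
      calc _ ≤ (Ico (2 ^ n - v.length) (2 ^ n)).card := by
            apply card_le_card
            intro i hi
            rw [mem_filter, mem_range] at hi
            rw [mem_Ico]
            omega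
        _ ≤ v.length := by rw [Nat.card_Ico]; omega
    have h3 : (∑ i ∈ range (2 ^ n), (if 2 ^ n < i + v.length then 1 else 0 : ℝ)) ≤ v.length := by
      exact_mod_cast h2
    refine le_trans ?_ (add_le_add_right h3 _)
    push_cast
    rw [← sum_add_distrib]
    apply sum_le_sum
    intro i hi
    rcases le_or_gt (i + v.length) (2 ^ n) with h4 | h4
    · rw [if_congr (hmem u hu i h4) rfl rfl, if_neg (not_lt.2 h4), add_zero]
    · rw [if_pos h4]
      split_ifs <;> norm_num

theorem mu_tendsto (v : Word) : Tendsto (fun n => (mu n).real (cyl v)) atTop (𝓝 (Lf v)) := by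
  have h1 := m_tendsto v true
  have h2 : Tendsto (fun n : ℕ => (v.length : ℝ) / 2 ^ n) atTop (𝓝 0) := by
    have : Tendsto (fun r : ℕ => (1 / 2 : ℝ) ^ r) atTop (𝓝 0) :=
      tendsto_pow_atTop_nhds_zero_of_lt_one (by norm_num) (by norm_num)
    have h := this.const_mul (v.length : ℝ)
    rw [mul_zero] at h
    refine h.congr fun n => ?_
    rw [one_div, inv_pow]
    rfl
  have h3 := h1.add h2
  rw [add_zero] at h3
  exact tendsto_of_tendsto_of_tendsto_of_le_of_le h1 h3 (fun n => (mu_cyl n v).1)
    (fun n => (mu_cyl n v).2)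

theorem continuous_shift : Continuous shift :=
  continuous_pi fun k => continuous_apply _

theorem isClopen_cyl (v : Word) : IsClopen (cyl v) := by
  have h : cyl v = (fun (x : ℤ → Bool) (k : Fin v.length) => x (0 + (k : ℕ))) ⁻¹'
      {f | List.ofFn f = v} := rfl
  rw [h]
  exact (isClopen_discrete _).preimage (continuous_pi fun k => continuous_apply _)

theorem inv_word' {ν : Measure (ℤ → Bool)} (h : ν.map shift = ν) (i : ℤ) (n : ℕ) (v : Word) :
    ν {x | word x i n = v} = ν {x | word x 0 n = v} := by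
  have h1 : ∀ i : ℤ, ν {x | word x (i + 1) n = v} = ν {x | word x i n = v} := by
    intro i
    conv_rhs => rw [← h]
    rw [Measure.map_apply measurable_shift (measurable_word i n v)]
    congr 1
    ext x
    simp only [Set.mem_preimage, Set.mem_ofPred_eq, word_shift]
  induction i using Int.induction_on with
  | zero => rfl
  | succ i ih => rw [h1, ih]
  | pred i ih => rw [← h1, sub_add_cancel, ih]

/-- There is a shift-invariant measure on `X` with the limit frequencies. -/
theorem exists_inv : ∃ μ : Measure (ℤ → Bool), IsInv μ ∧ ∀ v, μ.real (cyl v) = Lf v := by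
  set PM : ℕ → ProbabilityMeasure (ℤ → Bool) := fun n => ⟨mu n, mu_prob n⟩ with hPM
  set F : Ultrafilter (ProbabilityMeasure (ℤ → Bool)) := (hyperfilter ℕ).map PM with hF
  set μ := F.lim with hμ
  have hlim : Tendsto PM (hyperfilter ℕ : Filter ℕ) (𝓝 μ) := F.le_nhds_lim
  have hle : (hyperfilter ℕ : Filter ℕ) ≤ atTop := Nat.hyperfilter_le_atTop
  have hinv : (μ : Measure (ℤ → Bool)).map shift = μ := by
    have h1 := ProbabilityMeasure.tendsto_map_of_tendsto_of_continuous PM μ hlim continuous_shift
    have h2 : (fun i => (PM i).map continuous_shift.measurable.aemeasurable) = PM := by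
      funext i
      apply Subtype.ext
      exact mu_inv i
    rw [h2] at h1
    have h3 := tendsto_nhds_unique h1 hlim
    exact congrArg Subtype.val h3
  have hcyl : ∀ v, (μ : Measure (ℤ → Bool)).real (cyl v) = Lf v := by
    intro v
    have h1 := ProbabilityMeasure.tendsto_measure_of_isClopen_of_tendsto hlim (isClopen_cyl v)
    have h2 : Tendsto (fun i => ((PM i (cyl v) : NNReal) : ℝ)) (hyperfilter ℕ : Filter ℕ)
        (𝓝 ((μ (cyl v) : NNReal) : ℝ)) := (NNReal.continuous_coe.tendsto _).comp h1
    have h3 := (mu_tendsto v).mono_left hle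
    exact tendsto_nhds_unique h2 h3
  refine ⟨μ, ⟨inferInstance, ?_, hinv⟩, hcyl⟩
  have h1 : (Xᶜ : Set (ℤ → Bool)) ⊆
      ⋃ i : ℤ, ⋃ v : {v : Word // ¬ Legal v}, {x | word x i v.1.length = v.1} := by
    intro x hx
    rw [Set.mem_compl_iff, X, Set.mem_ofPred_eq] at hx
    push Not at hx
    obtain ⟨i, n, hn⟩ := hx
    rw [Set.mem_iUnion]
    refine ⟨i, ?_⟩
    rw [Set.mem_iUnion]
    refine ⟨⟨word x i n, hn⟩, ?_⟩
    simp only [Set.mem_ofPred_eq, length_word]
  refine measure_mono_null h1 ?_
  rw [measure_iUnion_null_iff]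
  intro i
  rw [measure_iUnion_null_iff]
  rintro ⟨v, hv⟩
  rw [inv_word' hinv]
  have h2 := hcyl v
  rw [Lf_not_legal hv, measureReal_def, ENNReal.toReal_eq_zero_iff] at h2
  rcases h2 with h2 | h2
  · exact h2
  · exact absurd h2 (measure_ne_top _ _)

/-- The entropy of the measure with the limit frequencies. -/
theorem entropy_ge {μ : Measure (ℤ → Bool)} (h : IsInv μ) (hc : ∀ v, μ.real (cyl v) = Lf v) :
    2 / 3 * Real.log 2 ≤ entropy μ := by
  have hprob := h.prob
  have hlog2 : 0 < Real.log 2 := Real.log_pos (by norm_num)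
  have hblock : ∀ R L : ℕ, ((L / 2 ^ (2 * R) - 1 : ℕ) : ℝ) * (K R * Real.log 2) ≤
      blockH μ L := by
    intro R L
    set k := L / 2 ^ (2 * R) - 1 with hk
    have h1 : ∀ w : Fin L → Bool, μ.real (cyl (List.ofFn w)) * (k * (K R * Real.log 2)) ≤
        Real.negMulLog (μ.real (cyl (List.ofFn w))) := by
      intro w
      have h2 := Lf_le_pow (List.ofFn w) R
      rw [← hc, List.length_ofFn, ← hk] at h2
      have h3 : 0 ≤ μ.real (cyl (List.ofFn w)) := measureReal_nonneg
      generalize μ.real (cyl (List.ofFn w)) = p at h2 h3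
      rcases h3.eq_or_lt with rfl | h3
      · simp
      · rw [Real.negMulLog]
        have h4 := Real.log_le_log h3 h2
        rw [Real.log_pow, one_div, Real.log_inv, Real.log_pow] at h4
        nlinarith
    have h2 := sum_le_sum (fun w (_ : w ∈ (univ : Finset (Fin L → Bool))) => h1 w)
    rw [← sum_mul, sum_cyl_one, one_mul] at h2
    exact h2
  -- boundedness
  have hbdd : IsBoundedUnder (· ≤ ·) atTop (fun n : ℕ => blockH μ n / n) := by
    refine ⟨Real.log 2 + 3 * (Real.log 2 + (K 0 * Real.log 2 +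
      (Real.log (Ge [] 0 (2 * 0)) + 0 * ([] : Word).length))), ?_⟩
    rw [eventually_map]
    filter_upwards [eventually_ge_atTop 1] with L hL
    have h1 := block_le h [] (s := 0) le_rfl 0 L (by simpa using hL)
    set B := Real.log 2 + (K 0 * Real.log 2 +
      (Real.log (Ge [] 0 (2 * 0)) + 0 * ([] : Word).length)) with hB
    have hB0 : 0 ≤ B := by
      have h5 : 0 ≤ Real.log (Ge [] 0 (2 * 0)) := Real.log_nonneg (one_le_Ge le_rfl _)
      have h7 : 0 ≤ (K 0 : ℝ) * Real.log 2 := by positivity
      have h8 : (0 : ℝ) * (([] : Word).length : ℝ) = 0 := zero_mul _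
      rw [hB, h8]
      linarith
    have hL1 : (1 : ℝ) ≤ L := by exact_mod_cast hL
    rw [div_le_iff₀ (by linarith)]
    refine h1.trans ?_
    simp only [mul_zero, pow_zero, div_one, zero_mul, sub_zero, Nat.cast_zero, zero_add, one_mul]
    nlinarith
  have hR : ∀ R : ℕ, (K R : ℝ) / 2 ^ (2 * R) * Real.log 2 ≤ entropy μ := by
    intro R
    set q : ℝ := 2 ^ (2 * R) with hq
    have hqpos : 0 < q := by positivity
    have hinv : Tendsto (fun L : ℕ => ((L : ℝ))⁻¹) atTop (𝓝 0) := tendsto_inv_atTop_nhds_zero_nat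
    have hg : Tendsto (fun L : ℕ => (K R : ℝ) / q * Real.log 2 -
        (2 * (K R * Real.log 2)) * ((L : ℝ))⁻¹) atTop (𝓝 ((K R : ℝ) / q * Real.log 2)) := by
      have := (hinv.const_mul (2 * (K R * Real.log 2))).const_sub ((K R : ℝ) / q * Real.log 2)
      rwa [mul_zero, sub_zero] at this
    rw [entropy, ← hg.limsup_eq]
    refine limsup_le_limsup ?_ hg.isCoboundedUnder_le hbdd
    filter_upwards [eventually_ge_atTop 1] with L hL
    have hL0 : (0 : ℝ) < L := by exact_mod_cast hL
    rw [le_div_iff₀ hL0]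
    refine le_trans ?_ (hblock R L)
    have h1 : (L : ℝ) / q - 2 ≤ ((L / 2 ^ (2 * R) - 1 : ℕ) : ℝ) := by
      have h2 : L < (L / 2 ^ (2 * R) + 1) * 2 ^ (2 * R) := by
        have h3 := Nat.div_add_mod' L (2 ^ (2 * R))
        have h4 := Nat.mod_lt L (show 0 < 2 ^ (2 * R) by positivity)
        rw [add_mul, one_mul]
        omega
      have h3 : (L : ℝ) < ((L / 2 ^ (2 * R) : ℕ) + 1) * q := by
        rw [hq]; exact_mod_cast h2
      have h4 : (L : ℝ) / q < (L / 2 ^ (2 * R) : ℕ) + 1 := by rwa [div_lt_iff₀ hqpos]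
      have h5 : ((L / 2 ^ (2 * R) : ℕ) : ℝ) ≤ ((L / 2 ^ (2 * R) - 1 : ℕ) : ℝ) + 1 := by
        exact_mod_cast (by omega : L / 2 ^ (2 * R) ≤ (L / 2 ^ (2 * R) - 1) + 1)
      linarith
    have h2 : (0 : ℝ) ≤ K R * Real.log 2 := by positivity
    have h3 := mul_le_mul_of_nonneg_right h1 h2
    refine le_trans (le_of_eq ?_) h3
    field_simp
  have hlim : Tendsto (fun R : ℕ => (K R : ℝ) / 2 ^ (2 * R) * Real.log 2) atTop
      (𝓝 (2 / 3 * Real.log 2)) := by
    have h1 : Tendsto (fun R : ℕ => (1 / 4 : ℝ) ^ R) atTop (𝓝 0) :=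
      tendsto_pow_atTop_nhds_zero_of_lt_one (by norm_num) (by norm_num)
    have h2 := (((h1.const_mul (2 / 3)).const_sub (2 / 3))).mul_const (Real.log 2)
    rw [mul_zero, sub_zero] at h2
    refine h2.congr fun R => ?_
    congr 1
    have h3 := K_eq R
    have h4 : (3 * K R + 2 : ℝ) = 2 * 4 ^ R := by exact_mod_cast h3
    have h5 : (2 : ℝ) ^ (2 * R) = 4 ^ R := by rw [pow_mul]; norm_num
    have h6 : (K R : ℝ) = (2 * 4 ^ R - 2) / 3 := by linarith
    rw [h5, h6, one_div, inv_pow]
    have : (0 : ℝ) < 4 ^ R := by positivity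
    field_simp
  exact le_of_tendsto' hlim hR

end Q43.PD
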