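import Pool.Agent.Q43.PD.Exist

/-!
# Almost sure convergence of the frequencies
-/

set_option autoImplicit false
set_option linter.unusedVariables false

namespace Q43.PD

open Finset Filter Topology MeasureTheory

theorem mean1_append (w w' : Word) (f : Word → ℝ) :
    mean1 (w ++ w') f = mean1 w fun a => mean1 w' fun b => f (a ++ b) := by
  induction w generalizing f with
  | nil => simp [mean1]
  | cons c w ih =>
    cases c
    · simp only [List.cons_append, mean1, ih]
    · simp only [List.cons_append, mean1, ih]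

theorem mean1_av (w : Word) (n : ℕ) (c : Bool) (g : Word → Word → ℝ) :
    mean1 w (fun x => av n c (fun b => g x b)) = av n c (fun b => mean1 w (fun x => g x b)) := by
  induction w generalizing g with
  | nil => simp [mean1]
  | cons d w ih =>
    cases d
    · simp only [mean1]
      exact ih fun u b => g (true :: true :: u) b
    · simp only [mean1]
      rw [ih fun u b => g (true :: false :: u) b, ih fun u b => g (false :: true :: u) b,
        ← av_add, div_eq_mul_inv, ← av_mul_right]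
      simp only [div_eq_mul_inv]

theorem av_step (n : ℕ) (c : Bool) (f : Word → ℝ) :
    av (n + 1) c f = av n c fun v => mean1 v f := by
  induction n generalizing c f with
  | zero =>
    rw [av_zero]
    cases c
    · rw [av_succ_false, av_zero, av_zero]; simp [mean1]
    · rw [av_succ_true, av_zero, av_zero, av_zero, av_zero]; simp [mean1]
  | succ n ih =>
    have key : ∀ c d, av (n + 1) c (fun a => av (n + 1) d (fun b => f (a ++ b))) =
        av n c (fun a => av n d (fun b => mean1 (a ++ b) f)) := by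
      intro c d
      rw [ih c]
      congr 1
      funext a
      have h1 : (fun x => av (n + 1) d (fun b => f (x ++ b))) =
          fun x => av n d (fun b => mean1 b (fun y => f (x ++ y))) := by
        funext x
        rw [ih d]
      rw [h1, mean1_av]
      congr 1
      funext b
      rw [mean1_append]
    cases c
    · rw [av_succ_false (n + 1) f, key, av_succ_false n (fun v => mean1 v f)]
    · rw [av_succ_true (n + 1) f, key, key, av_succ_true n (fun v => mean1 v f)]

theorem mean_eq_av (n : ℕ) (c : Bool) (f : Word → ℝ) : mean n [c] f = av n c f := by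
  induction n generalizing f with
  | zero => rw [av_zero, mean]
  | succ n ih => rw [mean, ih, av_step]

section Prob

variable {Ω : Type} [MeasurableSpace Ω] {ℙ : Measure Ω} [IsProbabilityMeasure ℙ] {W : ℕ → Ω → Word}

theorem law_null (hm : ∀ n u, MeasurableSet (W n ⁻¹' {u}))
    (hl : ∀ n u, ℙ.real (W n ⁻¹' {u}) = mean n [true] fun x => if x = u then 1 else 0) (n : ℕ) :
    ℙ {ω | W n ω ∉ P n true} = 0 := by
  classical
  have hN := Npos n true
  have h0 : ∀ u ∈ P n true, ℙ.real (W n ⁻¹' {u}) = 1 / N n true := by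
    intro u hu
    rw [hl, mean_eq_av, av, sum_ite_eq' (P n true) u (fun _ => (1 : ℝ)), if_pos hu]
  have h1 : ∑ u ∈ P n true, ℙ.real (W n ⁻¹' {u}) = 1 := by
    rw [sum_congr rfl h0, sum_const, card_P, nsmul_eq_mul]
    field_simp
  have h2 : ∑ u ∈ P n true, ℙ (W n ⁻¹' {u}) = ℙ (W n ⁻¹' (P n true : Set Word)) :=
    sum_measure_preimage_singleton (P n true) (fun u _ => hm n u)
  have h3 : MeasurableSet (W n ⁻¹' (P n true : Set Word)) := by
    have : W n ⁻¹' (P n true : Set Word) = ⋃ u ∈ P n true, W n ⁻¹' {u} := by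
      ext ω; simp
    rw [this]
    exact Finset.measurableSet_biUnion _ fun u _ => hm n u
  have h4 : ℙ (W n ⁻¹' (P n true : Set Word)) = 1 := by
    rw [← h2, ← ENNReal.toReal_eq_one_iff, ENNReal.toReal_sum (fun u _ => measure_ne_top _ _)]
    exact h1
  have h5 := prob_compl_eq_zero_iff (μ := ℙ) h3
  exact h5.2 h4

/-- The exponential Chebyshev inequality. -/
theorem chernoff (hm : ∀ n u, MeasurableSet (W n ⁻¹' {u}))
    (hl : ∀ n u, ℙ.real (W n ⁻¹' {u}) = mean n [true] fun x => if x = u then 1 else 0) (n : ℕ)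
    (v : Word) (s t : ℝ) :
    ℙ {ω | s * t ≤ s * occ v (W n ω)} ≤ ENNReal.ofReal (Ge v s n * Real.exp (-(s * t))) := by
  classical
  have hN := Npos n true
  have h0 : ∀ u ∈ P n true, ℙ (W n ⁻¹' {u}) = ENNReal.ofReal (1 / N n true) := by
    intro u hu
    have := hl n u
    rw [mean_eq_av, av, sum_ite_eq' (P n true) u (fun _ => (1 : ℝ)), if_pos hu] at this
    rw [← this, measureReal_def, ENNReal.ofReal_toReal (measure_ne_top _ _)]
  set A := (P n true).filter (fun u => s * t ≤ s * occ v u) with hA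
  have h1 : {ω | s * t ≤ s * occ v (W n ω)} ⊆
      {ω | W n ω ∉ P n true} ∪ ⋃ u ∈ A, W n ⁻¹' {u} := by
    intro ω hω
    by_cases h : W n ω ∈ P n true
    · right
      rw [Set.mem_iUnion₂]
      exact ⟨W n ω, mem_filter.2 ⟨h, hω⟩, rfl⟩
    · left; exact h
  calc ℙ {ω | s * t ≤ s * occ v (W n ω)} ≤
        ℙ ({ω | W n ω ∉ P n true} ∪ ⋃ u ∈ A, W n ⁻¹' {u}) := measure_mono h1
    _ ≤ ℙ {ω | W n ω ∉ P n true} + ℙ (⋃ u ∈ A, W n ⁻¹' {u}) := measure_union_le _ _
    _ = ℙ (⋃ u ∈ A, W n ⁻¹' {u}) := by rw [law_null hm hl n, zero_add]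
    _ ≤ ∑ u ∈ A, ℙ (W n ⁻¹' {u}) := measure_biUnion_finset_le _ _
    _ = ∑ u ∈ A, ENNReal.ofReal (1 / N n true) :=
        sum_congr rfl fun u hu => h0 u (mem_filter.1 hu).1
    _ = ENNReal.ofReal (∑ u ∈ A, 1 / (N n true : ℝ)) := by
        rw [ENNReal.ofReal_sum_of_nonneg (fun u _ => by positivity)]
    _ ≤ ENNReal.ofReal (Ge v s n * Real.exp (-(s * t))) := by
        apply ENNReal.ofReal_le_ofReal
        have h2 : ∑ u ∈ A, 1 / (N n true : ℝ) ≤ Fe v s n true * Real.exp (-(s * t)) := by
          rw [Fe, ← av_mul_right, av, sum_div]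
          calc ∑ u ∈ A, 1 / (N n true : ℝ) ≤
                ∑ u ∈ A, Real.exp (s * occ v u) * Real.exp (-(s * t)) / N n true := by
                apply sum_le_sum
                intro u hu
                apply div_le_div_of_nonneg_right _ hN.le
                rw [← Real.exp_add]
                apply Real.one_le_exp
                linarith [(mem_filter.1 hu).2]
            _ ≤ _ := by
                apply sum_le_sum_of_subset_of_nonneg (filter_subset _ _)
                intro u _ _
                positivity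
        exact h2.trans (mul_le_mul_of_nonneg_right (Fe_le_Ge v s n true) (Real.exp_pos _).le)

theorem summable_aux {a : ℝ} (ha : 0 < a) : Summable fun n : ℕ => Real.exp (-(a * 2 ^ n)) := by
  have h1 : Summable fun n : ℕ => Real.exp (-a) ^ n :=
    summable_geometric_of_lt_one (Real.exp_pos _).le (by rw [Real.exp_lt_one_iff]; linarith)
  refine Summable.of_nonneg_of_le (fun n => (Real.exp_pos _).le) (fun n => ?_) h1
  rw [← Real.exp_nat_mul]
  apply Real.exp_le_exp.2
  have h2 : (n : ℝ) ≤ 2 ^ n := by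
    have := Nat.lt_two_pow_self (n := n)
    exact_mod_cast this.le
  nlinarith

/-- Borel-Cantelli. -/
theorem bc (hm : ∀ n u, MeasurableSet (W n ⁻¹' {u}))
    (hl : ∀ n u, ℙ.real (W n ⁻¹' {u}) = mean n [true] fun x => if x = u then 1 else 0)
    (v : Word) {s y a : ℝ} (ha : 0 < a) {r : ℕ}
    (hb : ∀ n, r ≤ n → Real.log (Ge v s n) / 2 ^ n - s * y ≤ -a) :
    ∀ᵐ ω ∂ℙ, ∀ᶠ n in atTop, s * (occ v (W n ω) / 2 ^ n) < s * y := by
  have h1 : ∀ n, r ≤ n → ℙ {ω | s * (y * 2 ^ n) ≤ s * occ v (W n ω)} ≤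
      ENNReal.ofReal (Real.exp (-(a * 2 ^ n))) := by
    intro n hn
    refine (chernoff hm hl n v s (y * 2 ^ n)).trans (ENNReal.ofReal_le_ofReal ?_)
    have h2 := hb n hn
    have h3 : (0 : ℝ) < 2 ^ n := by positivity
    rw [← Real.exp_log (Ge_pos v s n), ← Real.exp_add]
    apply Real.exp_le_exp.2
    have h4 : Real.log (Ge v s n) / 2 ^ n ≤ s * y - a := by linarith
    rw [div_le_iff₀ h3] at h4
    linarith
  have h2 : ∑' n, ℙ {ω | s * (y * 2 ^ (n + r)) ≤ s * occ v (W (n + r) ω)} ≠ ⊤ := by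
    refine ne_top_of_le_ne_top ?_ (ENNReal.tsum_le_tsum fun n => h1 (n + r) (Nat.le_add_left _ _))
    have h3 := (summable_nat_add_iff r).2 (summable_aux ha)
    exact h3.tsum_ofReal_ne_top
  have h3 := ae_eventually_notMem h2
  filter_upwards [h3] with ω hω
  obtain ⟨n₀, hn₀⟩ := eventually_atTop.1 hω
  filter_upwards [eventually_ge_atTop (n₀ + r)] with n hn
  have h5 := hn₀ (n - r) (by omega)
  rw [Nat.sub_add_cancel (by omega)] at h5
  push Not at h5
  have h4 : (0 : ℝ) < 2 ^ n := by positivity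
  rw [← mul_div_assoc, div_lt_iff₀ h4]
  linarith

theorem freq_upper (hm : ∀ n u, MeasurableSet (W n ⁻¹' {u}))
    (hl : ∀ n u, ℙ.real (W n ⁻¹' {u}) = mean n [true] fun x => if x = u then 1 else 0)
    (v : Word) {ε : ℝ} (hε : 0 < ε) :
    ∀ᵐ ω ∂ℙ, ∀ᶠ n in atTop, (occ v (W n ω) : ℝ) / 2 ^ n < Lf v + ε := by
  obtain ⟨r, hr⟩ := ((xs_tendsto v).eventually (gt_mem_nhds
    (show Lf v < Lf v + ε / 2 by linarith))).exists
  have h4 : (0 : ℝ) < 2 ^ r := by positivity
  set s := min (1 / 2 ^ r) (ε / (4 * 2 ^ r)) with hs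
  have hs0 : 0 < s := lt_min (by positivity) (by positivity)
  have hs1 : s * 2 ^ r ≤ 1 := by
    rw [← le_div_iff₀ h4]; exact min_le_left _ _
  have hs2 : s * 2 ^ r ≤ ε / 4 := by
    rw [← le_div_iff₀ h4, div_div]; exact min_le_right _ _
  have h := bc hm hl v (s := s) (y := Lf v + ε) (a := s * ε / 4) (by positivity) (r := r)
    (fun n hn => by
      have h1 := log_Ge_le (v := v) hs0.le hn hs1
      have h2 : Real.log (Ge v s n) / 2 ^ n ≤ (Real.log (Ge v s n) + s * v.length) / 2 ^ n := by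
        apply div_le_div_of_nonneg_right _ (by positivity)
        have : 0 ≤ s * v.length := by positivity
        linarith
      have h3 : s ^ 2 * 2 ^ r ≤ s * (ε / 4) := by
        rw [pow_two, mul_assoc]
        exact mul_le_mul_of_nonneg_left hs2 hs0.le
      have h5 := mul_le_mul_of_nonneg_left hr.le hs0.le
      linarith)
  filter_upwards [h] with ω hω
  filter_upwards [hω] with n hn
  exact lt_of_mul_lt_mul_left hn hs0.le

theorem freq_lower (hm : ∀ n u, MeasurableSet (W n ⁻¹' {u}))
    (hl : ∀ n u, ℙ.real (W n ⁻¹' {u}) = mean n [true] fun x => if x = u then 1 else 0)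
    (v : Word) {ε : ℝ} (hε : 0 < ε) :
    ∀ᵐ ω ∂ℙ, ∀ᶠ n in atTop, Lf v - ε < (occ v (W n ω) : ℝ) / 2 ^ n := by
  have ht : Tendsto (fun r : ℕ => min (m v r true) (m v r false) / 2 ^ r) atTop (𝓝 (Lf v)) := by
    have := (m_tendsto v true).min (m_tendsto v false)
    rw [min_self] at this
    refine this.congr fun r => ?_
    exact min_div_div_right (by positivity) _ _
  obtain ⟨r, hr⟩ := (ht.eventually (lt_mem_nhds
    (show Lf v - ε / 2 < Lf v by linarith))).exists
  have h4 : (0 : ℝ) < 2 ^ r := by positivity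
  set s := min (1 / 2 ^ r) (ε / (4 * 2 ^ r)) with hs
  have hs0 : 0 < s := lt_min (by positivity) (by positivity)
  have hs1 : s * 2 ^ r ≤ 1 := by
    rw [← le_div_iff₀ h4]; exact min_le_left _ _
  have hs2 : s * 2 ^ r ≤ ε / 4 := by
    rw [← le_div_iff₀ h4, div_div]; exact min_le_right _ _
  have h := bc hm hl v (s := -s) (y := Lf v - ε) (a := s * ε / 4) (by positivity) (r := r)
    (fun n hn => by
      have h1 := log_Ge_neg (v := v) hs0.le hn hs1
      have h3 : s ^ 2 * 2 ^ r ≤ s * (ε / 4) := by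
        rw [pow_two, mul_assoc]
        exact mul_le_mul_of_nonneg_left hs2 hs0.le
      have h5 := mul_le_mul_of_nonneg_left hr.le hs0.le
      linarith)
  filter_upwards [h] with ω hω
  filter_upwards [hω] with n hn
  rw [neg_mul, neg_mul, neg_lt_neg_iff] at hn
  exact lt_of_mul_lt_mul_left hn hs0.le

/-- The almost sure convergence of the frequencies. -/
theorem freq_tendsto (hm : ∀ n u, MeasurableSet (W n ⁻¹' {u}))
    (hl : ∀ n u, ℙ.real (W n ⁻¹' {u}) = mean n [true] fun x => if x = u then 1 else 0)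
    (v : Word) :
    ∀ᵐ ω ∂ℙ, Tendsto (fun n => (occ v (W n ω) : ℝ) / 2 ^ n) atTop (𝓝 (Lf v)) := by
  have h1 : ∀ᵐ ω ∂ℙ, ∀ k : ℕ, ∀ᶠ n in atTop, (occ v (W n ω) : ℝ) / 2 ^ n < Lf v + 1 / (k + 1) :=
    ae_all_iff.2 fun k => freq_upper hm hl v (by positivity)
  have h2 : ∀ᵐ ω ∂ℙ, ∀ k : ℕ, ∀ᶠ n in atTop, Lf v - 1 / (k + 1) < (occ v (W n ω) : ℝ) / 2 ^ n :=
    ae_all_iff.2 fun k => freq_lower hm hl v (by positivity)
  filter_upwards [h1, h2] with ω hω1 hω2
  rw [tendsto_order]
  constructor
  · intro a ha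
    obtain ⟨k, hk⟩ := exists_nat_one_div_lt (show 0 < Lf v - a by linarith)
    filter_upwards [hω2 k] with n hn
    linarith
  · intro a ha
    obtain ⟨k, hk⟩ := exists_nat_one_div_lt (show 0 < a - Lf v by linarith)
    filter_upwards [hω1 k] with n hn
    linarith

end Prob

/-- Existence of the frequency measure, and its entropy. -/
theorem exists_freq : ∃ μ : Measure (ℤ → Bool), IsFreqMeasure μ ∧
    (∀ v, μ.real (cyl v) = Lf v) ∧ entropy μ = 2 / 3 * Real.log 2 := by
  obtain ⟨μ, h1, h2⟩ := exists_inv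
  refine ⟨μ, ⟨h1, ?_⟩, h2, le_antisymm (entropy_le h1) (entropy_ge h1 h2)⟩
  intro Ω _ ℙ _ W hm hl v
  rw [h2]
  exact freq_tendsto hm hl v

end Q43.PD
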