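import Pool.Agent.Q43.PD.Press

/-!
# Invariant measures: the Gibbs inequality
-/

set_option autoImplicit false

namespace Q43.PD

open Finset Filter Topology MeasureTheory

theorem length_word (x : ℤ → Bool) (i : ℤ) (n : ℕ) : (word x i n).length = n := by simp [word]

theorem word_add (x : ℤ → Bool) (i : ℤ) (a b : ℕ) :
    word x i (a + b) = word x i a ++ word x (i + a) b := by
  apply List.ext_getElem
  · simp [word]
  · intro k h1 h2
    rw [List.getElem_append]
    split_ifs with h
    · simp [word]
    · simp only [word, List.getElem_ofFn, List.length_ofFn]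
      congr 1
      rw [length_word] at h
      push Not at h
      omega

theorem word_shift (x : ℤ → Bool) (i : ℤ) (n : ℕ) : word (shift x) i n = word x (i + 1) n := by
  simp only [word, shift]
  congr 1
  funext k
  congr 1
  ring

theorem measurable_word (i : ℤ) (n : ℕ) (v : Word) : MeasurableSet {x : ℤ → Bool | word x i n = v} := by
  have h : {x : ℤ → Bool | word x i n = v} =
      (fun (x : ℤ → Bool) (k : Fin n) => x (i + (k : ℕ))) ⁻¹' {f | List.ofFn f = v} := rfl
  rw [h]
  exact (measurable_pi_lambda _ fun k => measurable_pi_apply _) (Set.toFinite _).measurableSet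

theorem measurable_shift : Measurable shift :=
  measurable_pi_lambda _ fun k => measurable_pi_apply _

variable {ν : Measure (ℤ → Bool)}

theorem inv_word (h : IsInv ν) (i : ℤ) (n : ℕ) (v : Word) :
    ν {x | word x i n = v} = ν {x | word x 0 n = v} := by
  have h1 : ∀ i : ℤ, ν {x | word x (i + 1) n = v} = ν {x | word x i n = v} := by
    intro i
    conv_rhs => rw [← h.inv]
    rw [Measure.map_apply measurable_shift (measurable_word i n v)]
    congr 1
    ext x
    simp only [Set.mem_preimage, Set.mem_ofPred_eq, word_shift]
  induction i using Int.induction_on with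
  | zero => rfl
  | succ i ih => rw [h1, ih]
  | pred i ih => rw [← h1, sub_add_cancel, ih]

/-- The window map. -/
def win (L : ℕ) (x : ℤ → Bool) : Fin L → Bool := fun k => x ((0 : ℤ) + (k : ℕ))

theorem measurable_win (L : ℕ) : Measurable (win L) :=
  measurable_pi_lambda _ fun k => measurable_pi_apply _

theorem cyl_eq {L : ℕ} (w : Fin L → Bool) : cyl (List.ofFn w) = win L ⁻¹' {w} := by
  ext x
  simp only [cyl, Set.mem_ofPred_eq, Set.mem_preimage, Set.mem_singleton_iff, List.length_ofFn]
  rw [word]
  exact List.ofFn_inj (f := win L x) (g := w)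

theorem ofFn_win (L : ℕ) (x : ℤ → Bool) : List.ofFn (win L x) = word x 0 L := rfl

/-- Decomposition of a set by windows. -/
theorem sum_cyl [IsProbabilityMeasure ν] (L : ℕ) {A : Set (ℤ → Bool)} (hA : MeasurableSet A) :
    ∑ w : Fin L → Bool, ν.real (cyl (List.ofFn w) ∩ A) = ν.real A := by
  have h1 := sum_measure_preimage_singleton (μ := ν.restrict A) (f := win L)
    (univ : Finset (Fin L → Bool)) (fun w _ => measurable_win L (measurableSet_singleton w))
  rw [coe_univ, Set.preimage_univ, Measure.restrict_apply_univ] at h1
  rw [measureReal_def, ← h1, ENNReal.toReal_sum (fun w _ => measure_ne_top _ _)]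
  apply sum_congr rfl
  intro w _
  rw [Measure.restrict_apply (measurable_win L (measurableSet_singleton w)), ← cyl_eq,
    measureReal_def]

theorem sum_cyl_one [IsProbabilityMeasure ν] (L : ℕ) :
    ∑ w : Fin L → Bool, ν.real (cyl (List.ofFn w)) = 1 := by
  have h := sum_cyl (ν := ν) L MeasurableSet.univ
  simp only [Set.inter_univ] at h
  rw [h]
  simp

theorem occ_window (x : ℤ → Bool) (v : Word) {i L : ℕ} (h : i + v.length ≤ L) :
    v <+: (word x 0 L).drop i ↔ word x i v.length = v := by
  obtain ⟨t, rfl⟩ := Nat.exists_eq_add_of_le h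
  rw [add_assoc, word_add, List.drop_append, List.drop_eq_nil_of_le (by rw [length_word]),
    length_word, Nat.sub_self, List.drop_zero, List.nil_append, word_add]
  constructor
  · intro h1
    have h2 := List.prefix_of_prefix_length_le h1 (List.prefix_append _ _)
      (by rw [length_word])
    have h3 := h2.eq_of_length (by rw [length_word])
    rw [zero_add] at h3
    exact h3.symm
  · intro h1
    rw [zero_add, h1]
    exact List.prefix_append _ _

theorem not_legal_zero (h : IsInv ν) {L : ℕ} {w : Fin L → Bool} (hw : ¬ Legal (List.ofFn w)) :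
    ν.real (cyl (List.ofFn w)) = 0 := by
  have h1 : cyl (List.ofFn w) ⊆ Xᶜ := by
    intro x hx hxX
    apply hw
    have h2 := hxX 0 (List.ofFn w).length
    rwa [show word x 0 (List.ofFn w).length = List.ofFn w from hx] at h2
  rw [measureReal_def, measure_mono_null h1 h.supp]
  rfl

open Classical in
/-- The expected number of occurrences. -/
theorem mean_occ (h : IsInv ν) (v : Word) (L : ℕ) :
    ((L - v.length : ℕ) : ℝ) * ν.real (cyl v) ≤
      ∑ w : Fin L → Bool, ν.real (cyl (List.ofFn w)) * occ v (List.ofFn w) := by
  have := h.prob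
  have h1 : ∀ w : Fin L → Bool, ((∑ i ∈ range (L - v.length),
      if v <+: (List.ofFn w).drop i then 1 else 0 : ℕ) : ℝ) ≤ occ v (List.ofFn w) := by
    intro w
    rw [occ_eq_sum]
    have : range (L - v.length) ⊆ range (List.ofFn w).length := by
      rw [List.length_ofFn]
      intro i hi
      rw [mem_range] at hi ⊢
      omega
    exact_mod_cast sum_le_sum_of_subset this
  calc ((L - v.length : ℕ) : ℝ) * ν.real (cyl v)
      = ∑ i ∈ range (L - v.length), ν.real {x | word x i v.length = v} := by
        rw [sum_congr rfl (g := fun _ => ν.real (cyl v)) (fun i _ => by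
          rw [measureReal_def, inv_word h]; rfl), sum_const, card_range, nsmul_eq_mul]
    _ = ∑ i ∈ range (L - v.length), ∑ w : Fin L → Bool,
          ν.real (cyl (List.ofFn w)) * (if v <+: (List.ofFn w).drop i then 1 else 0) := by
        apply sum_congr rfl
        intro i hi
        rw [mem_range] at hi
        rw [← sum_cyl L (measurable_word i v.length v)]
        apply sum_congr rfl
        intro w _
        split_ifs with hw
        · rw [mul_one]
          congr 1
          rw [Set.inter_eq_left]
          intro x hx
          have h2 : word x 0 L = List.ofFn w := by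
            have : word x 0 (List.ofFn w).length = List.ofFn w := hx
            rwa [List.length_ofFn] at this
          rw [← h2] at hw
          exact (occ_window x v (by omega)).1 hw
        · rw [mul_zero]
          have h3 : cyl (List.ofFn w) ∩ {x | word x i v.length = v} = ∅ := by
            rw [Set.eq_empty_iff_forall_notMem]
            rintro x ⟨hx, hx2⟩
            have h2 : word x 0 L = List.ofFn w := by
              have : word x 0 (List.ofFn w).length = List.ofFn w := hx
              rwa [List.length_ofFn] at this
            apply hw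
            rw [← h2]
            exact (occ_window x v (by omega)).2 hx2
          rw [h3]
          simp
    _ = ∑ w : Fin L → Bool, ν.real (cyl (List.ofFn w)) * ((∑ i ∈ range (L - v.length),
          if v <+: (List.ofFn w).drop i then 1 else 0 : ℕ) : ℝ) := by
        rw [sum_comm]
        apply sum_congr rfl
        intro w _
        push_cast
        rw [mul_sum]
    _ ≤ _ := by
        apply sum_le_sum
        intro w _
        exact mul_le_mul_of_nonneg_left (h1 w) measureReal_nonneg

theorem gibbs_term {p q : ℝ} (hp : 0 ≤ p) (hq : 0 < q) (f Zl : ℝ) (he : Real.log q = f - Zl) :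
    Real.negMulLog p + p * f ≤ p * Zl + q - p := by
  rcases hp.eq_or_lt with rfl | hp
  · simp [hq.le]
  · have h1 : Real.log (q / p) ≤ q / p - 1 := Real.log_le_sub_one_of_pos (by positivity)
    rw [Real.log_div hq.ne' hp.ne', he] at h1
    have h2 := mul_le_mul_of_nonneg_left h1 hp.le
    have h3 : p * (q / p - 1) = q - p := by field_simp
    rw [h3] at h2
    rw [Real.negMulLog]
    linarith

open Classical in
theorem gibbs (h : IsInv ν) (v : Word) (s : ℝ) (hs : 0 ≤ s) (L : ℕ) :
    0 < Z v s L ∧ blockH ν L + s * (((L - v.length : ℕ) : ℝ) * ν.real (cyl v)) ≤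
      Real.log (Z v s L) := by
  have := h.prob
  set A := (univ : Finset (Fin L → Bool)).filter (fun w => Legal (List.ofFn w)) with hA
  set p : (Fin L → Bool) → ℝ := fun w => ν.real (cyl (List.ofFn w)) with hp
  have hp0 : ∀ w, 0 ≤ p w := fun w => measureReal_nonneg
  have hsum : ∑ w ∈ A, p w = 1 := by
    rw [← sum_cyl_one (ν := ν) L]
    apply sum_subset (subset_univ _)
    intro w _ hw
    rw [hA, mem_filter] at hw
    push Not at hw
    exact not_legal_zero h (hw (mem_univ _))
  have hne : A.Nonempty := by
    rw [nonempty_iff_ne_empty]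
    intro he
    rw [he, sum_empty] at hsum
    exact zero_ne_one hsum
  have hZ : 0 < Z v s L := sum_pos (fun w _ => Real.exp_pos _) hne
  refine ⟨hZ, ?_⟩
  have h1 : blockH ν L + s * ∑ w : Fin L → Bool, p w * occ v (List.ofFn w) =
      ∑ w ∈ A, (Real.negMulLog (p w) + p w * (s * occ v (List.ofFn w))) := by
    rw [blockH, mul_sum, ← sum_add_distrib]
    symm
    have h2 : ∀ w, Real.negMulLog (p w) + s * (p w * occ v (List.ofFn w)) =
        Real.negMulLog (p w) + p w * (s * occ v (List.ofFn w)) := fun w => by ring
    rw [sum_congr rfl (fun w _ => h2 w)]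
    apply sum_subset (subset_univ _)
    intro w _ hw
    rw [hA, mem_filter] at hw
    push Not at hw
    have h3 : p w = 0 := not_legal_zero h (hw (mem_univ _))
    rw [h3]
    simp
  have h2 := mul_le_mul_of_nonneg_left (mean_occ h v L) hs
  have h3 : ∑ w ∈ A, (Real.negMulLog (p w) + p w * (s * occ v (List.ofFn w))) ≤
      ∑ w ∈ A, (p w * Real.log (Z v s L) + Real.exp (s * occ v (List.ofFn w)) / Z v s L - p w) := by
    apply sum_le_sum
    intro w _
    apply gibbs_term (hp0 w) (div_pos (Real.exp_pos _) hZ)
    rw [Real.log_div (Real.exp_pos _).ne' hZ.ne', Real.log_exp]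
  have h4 : ∑ w ∈ A, (p w * Real.log (Z v s L) + Real.exp (s * occ v (List.ofFn w)) / Z v s L -
      p w) = Real.log (Z v s L) := by
    rw [sum_sub_distrib, sum_add_distrib, ← sum_mul, hsum, ← sum_div]
    have : (∑ w ∈ A, Real.exp (s * occ v (List.ofFn w))) = Z v s L := rfl
    rw [this, div_self hZ.ne']
    ring
  linarith

end Q43.PD
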