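import Pool.Agent.Q43.PD.Freq

/-!
# A model of the random words; uniqueness of the frequency measure
-/

set_option autoImplicit false
set_option linter.unusedVariables false

namespace Q43.PD

open Finset Filter Topology MeasureTheory

/-- The discrete sigma-algebra on words. -/
local instance : MeasurableSpace Word := ⊤

/-- The law of the random realisation. -/
noncomputable def law (n : ℕ) : Measure Word :=
  ∑ u ∈ P n true, ENNReal.ofReal (1 / N n true) • Measure.dirac u

theorem law_real (n : ℕ) (u : Word) :
    (law n).real {u} = mean n [true] fun x => if x = u then 1 else 0 := by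
  classical
  rw [mean_eq_av, av, sum_ite_eq' (P n true) u (fun _ => (1 : ℝ)), law, measureReal_def,
    Measure.finsetSum_apply]
  have h : ∀ w ∈ P n true, (ENNReal.ofReal (1 / N n true) • Measure.dirac w : Measure Word) {u} =
      if w = u then ENNReal.ofReal (1 / N n true) else 0 := by
    intro w _
    rw [Measure.smul_apply, smul_eq_mul, Measure.dirac_apply' _ (by trivial)]
    by_cases hw : w = u
    · rw [if_pos hw, Set.indicator_of_mem (by rw [hw]; rfl)]; simp
    · rw [if_neg hw, Set.indicator_of_notMem (by rwa [Set.mem_singleton_iff])]; simp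
  rw [sum_congr rfl h, sum_ite_eq' (P n true) u (fun _ => ENNReal.ofReal (1 / N n true))]
  split_ifs with hu
  · rw [ENNReal.toReal_ofReal (by have := Npos n true; positivity)]
  · simp

theorem law_prob (n : ℕ) : IsProbabilityMeasure (law n) := by
  constructor
  rw [law, Measure.finsetSum_apply]
  have h : ∀ w ∈ P n true, (ENNReal.ofReal (1 / N n true) • Measure.dirac w : Measure Word) Set.univ
      = ENNReal.ofReal (1 / N n true) := by
    intro w _
    rw [Measure.smul_apply, smul_eq_mul, measure_univ, mul_one]
  have hN := Npos n true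
  rw [sum_congr rfl h, ← ENNReal.ofReal_sum_of_nonneg (fun _ _ => by positivity), sum_const, card_P,
    nsmul_eq_mul]
  rw [show (N n true : ℝ) * (1 / N n true) = 1 by field_simp]
  simp

/-- There is a model of the random realisations. -/
theorem exists_model : ∃ (Ω : Type) (_ : MeasurableSpace Ω) (ℙ : Measure Ω)
    (_ : IsProbabilityMeasure ℙ) (W : ℕ → Ω → Word), (∀ n u, MeasurableSet (W n ⁻¹' {u})) ∧
    (∀ n u, ℙ.real (W n ⁻¹' {u}) = mean n [true] fun x => if x = u then 1 else 0) := by
  have := law_prob
  refine ⟨ℕ → Word, inferInstance, Measure.infinitePi law, inferInstance, fun n ω => ω n, ?_, ?_⟩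
  · intro n u
    exact measurable_pi_apply n (by trivial)
  · intro n u
    have h := Measure.infinitePi_map_eval law n
    have h2 : (Measure.infinitePi law).real ((fun ω : ℕ → Word => ω n) ⁻¹' {u}) =
        (law n).real {u} := by
      rw [measureReal_def, measureReal_def, ← h, Measure.map_apply (measurable_pi_apply n)
        (by trivial)]
    rw [h2]
    exact law_real n u

/-- A frequency measure has the limit frequencies. -/
theorem freq_cyl {μ : Measure (ℤ → Bool)} (h : IsFreqMeasure μ) (v : Word) :
    μ.real (cyl v) = Lf v := by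
  obtain ⟨Ω, mΩ, ℙ, hP, W, hm, hl⟩ := exists_model
  have h1 := h.freq Ω ℙ W hm hl v
  have h2 := freq_tendsto hm hl v
  obtain ⟨ω, hω1, hω2⟩ := (h1.and h2).exists
  exact tendsto_nhds_unique hω1 hω2

/-- The frequency measure is unique. -/
theorem freq_unique {μ ν : Measure (ℤ → Bool)} (hμ : IsFreqMeasure μ) (hν : IsFreqMeasure ν) :
    μ = ν :=
  ext_of_cyl hμ.inv hν.inv fun v => (freq_cyl hμ v).trans (freq_cyl hν v).symm

/-- The main theorem. -/
theorem main : ∃ μ : Measure (ℤ → Bool), IsFreqMeasure μ ∧ (∀ ν, IsFreqMeasure ν → ν = μ) ∧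
    IsMME μ ∧ (∀ ν, IsMME ν → ν = μ) ∧ entropy μ = 2 / 3 * Real.log 2 := by
  obtain ⟨μ, h1, h2, h3⟩ := exists_freq
  refine ⟨μ, h1, fun ν hν => freq_unique hν h1, ⟨h1.inv, fun ν hν => ?_⟩, fun ν hν => ?_, h3⟩
  · rw [h3]
    exact entropy_le hν
  · exact unique hν.1 h1.inv (h3 ▸ hν.2 μ h1.inv) h3.ge

end Q43.PD
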