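import Pool.Agent.Q43.PD.Words

/-!
# Occurrences
-/

set_option autoImplicit false

namespace Q43.PD

open Finset

theorem occ_eq_sum (v w : Word) : occ v w = ∑ i ∈ range w.length, if v <+: w.drop i then 1 else 0 := by
  rw [occ, card_filter]

theorem occ_append (v u u' : Word) : occ v (u ++ u') =
    (∑ i ∈ range u.length, if v <+: u.drop i ++ u' then 1 else 0) + occ v u' := by
  rw [occ_eq_sum, List.length_append, sum_range_add]
  congr 1
  · apply sum_congr rfl
    intro i hi
    rw [mem_range] at hi
    rw [List.drop_append_of_le_length hi.le]
  · rw [occ_eq_sum]
    apply sum_congr rfl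
    intro i _
    rw [List.drop_append, List.drop_eq_nil_of_le (as := u) (Nat.le_add_right _ _),
      List.nil_append, Nat.add_sub_cancel_left]

theorem occ_append_ge (v u u' : Word) : occ v u + occ v u' ≤ occ v (u ++ u') := by
  rw [occ_append, occ_eq_sum v u]
  apply Nat.add_le_add_right
  apply sum_le_sum
  intro i _
  split_ifs with h1 h2 h2
  · exact le_rfl
  · exact absurd (h1.trans (List.prefix_append _ _)) h2
  · exact Nat.zero_le _
  · exact le_rfl

theorem occ_append_le (v u u' : Word) : occ v (u ++ u') ≤ occ v u + occ v u' + v.length := by
  rw [occ_append, occ_eq_sum v u]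
  have h : (∑ i ∈ range u.length, if v <+: u.drop i ++ u' then 1 else 0) ≤
      ∑ i ∈ range u.length, ((if v <+: u.drop i then 1 else 0) +
        if u.length - v.length < i + 1 ∧ u.length < i + v.length then 1 else 0) := by
    apply sum_le_sum
    intro i hi
    rw [mem_range] at hi
    by_cases h1 : v <+: u.drop i
    · rw [if_pos h1, if_pos (h1.trans (List.prefix_append _ _))]; omega
    · rw [if_neg h1]
      by_cases h2 : v <+: u.drop i ++ u'
      · rw [if_pos h2]
        have h3 : u.length < i + v.length := by
          by_contra hcon
          push Not at hcon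
          apply h1
          have h4 : (u.drop i).length = u.length - i := List.length_drop
          exact List.prefix_of_prefix_length_le h2 (List.prefix_append _ _) (by omega)
        rw [if_pos ⟨by omega, h3⟩]
      · rw [if_neg h2]; omega
  rw [sum_add_distrib] at h
  have h2 : (∑ i ∈ range u.length,
      if u.length - v.length < i + 1 ∧ u.length < i + v.length then 1 else 0) ≤ v.length := by
    rw [← card_filter]
    calc _ ≤ (Ico (u.length - v.length) u.length).card := by
          apply card_le_card
          intro i hi
          rw [mem_filter, mem_range] at hi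
          rw [mem_Ico]
          omega
      _ ≤ v.length := by rw [Nat.card_Ico]; omega
  omega

theorem occ_le (v w : Word) : occ v w ≤ w.length := by
  rw [occ]
  exact le_trans (card_filter_le _ _) (by rw [card_range])

theorem occ_infix {v w U : Word} (h : w <:+: U) : occ v w ≤ occ v U := by
  obtain ⟨s, t, rfl⟩ := h
  have h1 := occ_append_ge v (s ++ w) t
  have h2 := occ_append_ge v s w
  omega

theorem sum_occ_le (k : ℕ) (w : Word) : ∑ v : Fin k → Bool, occ (List.ofFn v) w ≤ w.length := by
  simp_rw [occ_eq_sum]
  rw [sum_comm]
  calc _ ≤ ∑ i ∈ range w.length, 1 := by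
        apply sum_le_sum
        intro i _
        rw [← card_filter]
        apply card_le_one.2
        intro a ha b hb
        rw [mem_filter] at ha hb
        have h1 := List.prefix_of_prefix_length_le ha.2 hb.2 (by simp)
        have h2 := h1.eq_of_length (by simp)
        exact List.ofFn_injective h2
    _ = w.length := by simp

end Q43.PD
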