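import Pool.Agent.Q43.PD.Av

/-!
# Exponential moments and the number of legal words
-/

set_option autoImplicit false

namespace Q43.PD

open Finset Filter Topology

noncomputable def Fe (v : Word) (s : ℝ) (r : ℕ) (c : Bool) : ℝ :=
  av r c fun u => Real.exp (s * occ v u)

noncomputable def Ge (v : Word) (s : ℝ) (r : ℕ) : ℝ := max (Fe v s r true) (Fe v s r false)

theorem Fe_le_Ge (v : Word) (s : ℝ) (r : ℕ) (c : Bool) : Fe v s r c ≤ Ge v s r := by
  cases c
  · exact le_max_right _ _
  · exact le_max_left _ _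

theorem Fe_pos (v : Word) (s : ℝ) (r : ℕ) (c : Bool) : 0 < Fe v s r c := by
  rw [Fe, av]
  apply div_pos _ (Npos r c)
  apply sum_pos
  · intro u _
    exact Real.exp_pos _
  · rw [← card_pos, card_P]
    exact N_pos r c

theorem Ge_pos (v : Word) (s : ℝ) (r : ℕ) : 0 < Ge v s r :=
  lt_of_lt_of_le (Fe_pos v s r true) (Fe_le_Ge v s r true)

theorem one_le_Ge {v : Word} {s : ℝ} (hs : 0 ≤ s) (r : ℕ) : 1 ≤ Ge v s r := by
  refine le_trans ?_ (Fe_le_Ge v s r true)
  rw [Fe, ← av_const r true 1]
  apply av_mono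
  intro u _
  exact Real.one_le_exp (by positivity)

/-- Submultiplicativity, with the constant `e ^ κ`. -/
theorem Ge_succ {v : Word} {s κ : ℝ}
    (h : ∀ a b : Word, s * occ v (a ++ b) ≤ s * occ v a + s * occ v b + κ) (r : ℕ) :
    Ge v s (r + 1) ≤ Real.exp κ * (Ge v s r * Ge v s r) := by
  have key : ∀ c d, av r c (fun a => av r d (fun b => Real.exp (s * occ v (a ++ b)))) ≤
      Real.exp κ * (Ge v s r * Ge v s r) := by
    intro c d
    calc av r c (fun a => av r d (fun b => Real.exp (s * occ v (a ++ b))))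
        ≤ av r c (fun a => av r d (fun b => (Real.exp κ * Real.exp (s * occ v a)) *
            Real.exp (s * occ v b))) := by
          apply av_mono
          intro a _
          apply av_mono
          intro b _
          rw [← Real.exp_add, ← Real.exp_add]
          apply Real.exp_le_exp.2
          linarith [h a b]
      _ = (Real.exp κ * Fe v s r c) * Fe v s r d := by
          rw [av_prod, av_mul_left]
          rfl
      _ ≤ (Real.exp κ * Ge v s r) * Ge v s r :=
          mul_le_mul (mul_le_mul_of_nonneg_left (Fe_le_Ge v s r c) (Real.exp_pos _).le)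
            (Fe_le_Ge v s r d) (Fe_pos v s r d).le
            (mul_nonneg (Real.exp_pos _).le (Ge_pos v s r).le)
      _ = _ := by ring
  rw [Ge]
  apply max_le
  · have e : Fe v s (r + 1) true = _ := av_succ_true r _
    rw [e]
    linarith [key true false, key false true]
  · have e : Fe v s (r + 1) false = _ := av_succ_false r _
    rw [e]
    exact key true true

/-- The normalised logarithm decreases. -/
theorem gl_antitone {v : Word} {s κ : ℝ}
    (h : ∀ a b : Word, s * occ v (a ++ b) ≤ s * occ v a + s * occ v b + κ) :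
    Antitone fun r : ℕ => (Real.log (Ge v s r) + κ) / 2 ^ r := by
  apply antitone_nat_of_succ_le
  intro r
  rw [div_le_div_iff₀ (by positivity) (by positivity), pow_succ]
  have h1 : Real.log (Ge v s (r + 1)) ≤ κ + (Real.log (Ge v s r) + Real.log (Ge v s r)) := by
    rw [← Real.log_mul (Ge_pos v s r).ne' (Ge_pos v s r).ne']
    conv_rhs => rw [← Real.log_exp κ]
    rw [← Real.log_mul (Real.exp_pos _).ne' (mul_pos (Ge_pos v s r) (Ge_pos v s r)).ne']
    exact Real.log_le_log (Ge_pos v s _) (Ge_succ h r)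
  have h4 : (0 : ℝ) < 2 ^ r := by positivity
  nlinarith

theorem quad {x : ℝ} (hx : |x| ≤ 1) : Real.exp x ≤ 1 + x + x ^ 2 := by
  have := Real.abs_exp_sub_one_sub_id_le hx
  have h2 := (abs_le.1 this).2
  linarith

/-- Taylor bound of the exponential moment. -/
theorem Fe_taylor {v : Word} {s : ℝ} (r : ℕ) (hs : |s| * 2 ^ r ≤ 1) (c : Bool) :
    Fe v s r c ≤ 1 + s * m v r c + s ^ 2 * 4 ^ r := by
  have h : Fe v s r c ≤ av r c (fun u => (1 + s ^ 2 * 4 ^ r) + s * occ v u) := by
    apply av_mono
    intro u hu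
    have h1 : (occ v u : ℝ) ≤ 2 ^ r := by
      have := occ_le v u
      rw [length_P hu] at this
      exact_mod_cast this
    have h0 : (0 : ℝ) ≤ occ v u := by positivity
    have h2 : |s * occ v u| ≤ 1 := by
      rw [abs_mul, abs_of_nonneg h0]
      exact le_trans (mul_le_mul_of_nonneg_left h1 (abs_nonneg s)) hs
    have h3 : (s * occ v u) ^ 2 ≤ s ^ 2 * 4 ^ r := by
      rw [mul_pow]
      apply mul_le_mul_of_nonneg_left _ (sq_nonneg s)
      calc (occ v u : ℝ) ^ 2 ≤ (2 ^ r) ^ 2 := pow_le_pow_left₀ h0 h1 2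
        _ = 4 ^ r := by rw [← pow_mul, mul_comm, pow_mul]; norm_num
    linarith [quad h2]
  refine h.trans (le_of_eq ?_)
  rw [av_add, av_const, av_mul_left, m]
  ring

theorem shift_pos {v : Word} {s : ℝ} (hs : 0 ≤ s) (a b : Word) :
    s * occ v (a ++ b) ≤ s * occ v a + s * occ v b + s * v.length := by
  have h : (occ v (a ++ b) : ℝ) ≤ occ v a + occ v b + v.length := by
    exact_mod_cast occ_append_le v a b
  calc s * occ v (a ++ b) ≤ s * (occ v a + occ v b + v.length) := mul_le_mul_of_nonneg_left h hs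
    _ = _ := by ring

theorem shift_neg {v : Word} {s : ℝ} (hs : s ≤ 0) (a b : Word) :
    s * occ v (a ++ b) ≤ s * occ v a + s * occ v b + 0 := by
  have h : (occ v a + occ v b : ℝ) ≤ occ v (a ++ b) := by
    exact_mod_cast occ_append_ge v a b
  calc s * occ v (a ++ b) ≤ s * (occ v a + occ v b) := mul_le_mul_of_nonpos_left h hs
    _ = _ := by ring

/-- Upper exponential moment. -/
theorem log_Ge_le {v : Word} {s : ℝ} (hs : 0 ≤ s) {r₀ r : ℕ} (hr : r₀ ≤ r)
    (hs1 : s * 2 ^ r₀ ≤ 1) :
    (Real.log (Ge v s r) + s * v.length) / 2 ^ r ≤ s * xs v r₀ + s ^ 2 * 2 ^ r₀ := by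
  refine (gl_antitone (shift_pos hs) hr).trans ?_
  have h1 : Ge v s r₀ ≤ 1 + (s * mx v r₀ + s ^ 2 * 4 ^ r₀) := by
    rw [Ge]
    have hs' : |s| * 2 ^ r₀ ≤ 1 := by rwa [abs_of_nonneg hs]
    apply max_le
    · have h2 := Fe_taylor r₀ hs' (v := v) true
      have h3 : s * m v r₀ true ≤ s * mx v r₀ := mul_le_mul_of_nonneg_left (le_max_left _ _) hs
      linarith
    · have h2 := Fe_taylor r₀ hs' (v := v) false
      have h3 : s * m v r₀ false ≤ s * mx v r₀ := mul_le_mul_of_nonneg_left (le_max_right _ _) hs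
      linarith
  have h2 : Real.log (Ge v s r₀) ≤ s * mx v r₀ + s ^ 2 * 4 ^ r₀ := by
    have := Real.log_le_sub_one_of_pos (Ge_pos v s r₀)
    linarith
  have h4 : (0 : ℝ) < 2 ^ r₀ := by positivity
  have h5 : (4 : ℝ) ^ r₀ = 2 ^ r₀ * 2 ^ r₀ := by rw [← mul_pow]; norm_num
  simp only
  rw [div_le_iff₀ h4, xs]
  rw [h5] at h2
  have h6 : (s * ((mx v r₀ + v.length) / 2 ^ r₀) + s ^ 2 * 2 ^ r₀) * 2 ^ r₀ =
      s * (mx v r₀ + v.length) + s ^ 2 * (2 ^ r₀ * 2 ^ r₀) := by
    field_simp
  rw [h6]
  linarith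

/-- Lower exponential moment. -/
theorem log_Ge_neg {v : Word} {s : ℝ} (hs : 0 ≤ s) {r₀ r : ℕ} (hr : r₀ ≤ r)
    (hs1 : s * 2 ^ r₀ ≤ 1) :
    Real.log (Ge v (-s) r) / 2 ^ r ≤
      -s * (min (m v r₀ true) (m v r₀ false) / 2 ^ r₀) + s ^ 2 * 2 ^ r₀ := by
  have h0 := gl_antitone (shift_neg (v := v) (neg_nonpos.2 hs)) hr
  simp only [add_zero] at h0
  refine h0.trans ?_
  have h1 : Ge v (-s) r₀ ≤ 1 + (-s * min (m v r₀ true) (m v r₀ false) + s ^ 2 * 4 ^ r₀) := by
    rw [Ge]
    have hs' : |-s| * 2 ^ r₀ ≤ 1 := by rwa [abs_neg, abs_of_nonneg hs]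
    apply max_le
    · have h2 := Fe_taylor r₀ hs' (v := v) true
      have h3 : s * min (m v r₀ true) (m v r₀ false) ≤ s * m v r₀ true :=
        mul_le_mul_of_nonneg_left (min_le_left _ _) hs
      rw [neg_sq] at h2
      linarith
    · have h2 := Fe_taylor r₀ hs' (v := v) false
      have h3 : s * min (m v r₀ true) (m v r₀ false) ≤ s * m v r₀ false :=
        mul_le_mul_of_nonneg_left (min_le_right _ _) hs
      rw [neg_sq] at h2
      linarith
  have h2 : Real.log (Ge v (-s) r₀) ≤ -s * min (m v r₀ true) (m v r₀ false) + s ^ 2 * 4 ^ r₀ := by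
    have := Real.log_le_sub_one_of_pos (Ge_pos v (-s) r₀)
    linarith
  have h4 : (0 : ℝ) < 2 ^ r₀ := by positivity
  have h5 : (4 : ℝ) ^ r₀ = 2 ^ r₀ * 2 ^ r₀ := by rw [← mul_pow]; norm_num
  rw [div_le_iff₀ h4]
  rw [h5] at h2
  have h6 : (-s * (min (m v r₀ true) (m v r₀ false) / 2 ^ r₀) + s ^ 2 * 2 ^ r₀) * 2 ^ r₀ =
      -s * min (m v r₀ true) (m v r₀ false) + s ^ 2 * (2 ^ r₀ * 2 ^ r₀) := by
    field_simp
  rw [h6]
  exact h2

/-- A legal word is cut out of a concatenation of few inflation words. -/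
theorem legal_cover {r : ℕ} {w : Word} (hw : Legal w) (hL : 2 ^ r ≤ w.length) :
    ∃ o < 2 ^ r, ∃ y : Word, y.length ≤ w.length / 2 ^ r + 2 ∧ ∃ U ∈ PW r y,
      w = (U.drop o).take w.length := by
  obtain ⟨n₀, -, c, x, hx, s, t, hst⟩ := hw
  have hlen : x.length = 2 ^ n₀ := length_P (mem_P.2 hx)
  have hr : r ≤ n₀ := by
    by_contra hcon
    push Not at hcon
    have h1 : 2 ^ n₀ < 2 ^ r := Nat.pow_lt_pow_right (by norm_num) hcon
    have h2 : w.length ≤ x.length := by rw [← hst]; simp; omega
    omega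
  obtain ⟨k, rfl⟩ := Nat.exists_eq_add_of_le' hr
  obtain ⟨y, hy, hxy⟩ := thetaN_add.1 hx
  have hxP := mem_PW.2 hxy
  set q := 2 ^ r with hq
  have hqpos : 0 < q := by positivity
  set n := w.length / q + 2 with hn
  refine ⟨s.length % q, Nat.mod_lt _ hqpos, (y.drop (s.length / q)).take n, ?_,
    (x.drop (s.length / q * q)).take (n * q), take_PW (drop_PW hxP _) _, ?_⟩
  · rw [List.length_take]; exact min_le_left _ _
  · have h1 : s.length / q * q + s.length % q = s.length := Nat.div_add_mod' _ _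
    have h2 : w.length ≤ n * q - s.length % q := by
      have h3 : s.length % q < q := Nat.mod_lt _ hqpos
      have h4 := Nat.div_add_mod w.length q
      have h5 : w.length % q < q := Nat.mod_lt _ hqpos
      have h6 : n * q = q * (w.length / q) + 2 * q := by rw [hn]; ring
      omega
    rw [List.drop_take, List.drop_drop, h1, List.take_take, min_eq_left h2, ← hst]
    simp

theorem occ_nil (v : Word) : occ v [] = 0 := by simp [occ]

/-- Exponential sums over concatenations of inflation words. -/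
theorem sum_PW_le {v : Word} {s : ℝ} (hs : 0 ≤ s) (R : ℕ) (y : Word) :
    ∑ U ∈ PW (2 * R) y, Real.exp (s * occ v U) ≤
      (Real.exp (s * v.length) * (2 ^ K R * Ge v s (2 * R))) ^ y.length := by
  induction y with
  | nil => simp [PW, occ_nil]
  | cons c y ih =>
    rw [PW, sum_image₂ (fun u hu => length_P hu), List.length_cons, pow_succ']
    have h1 : ∑ a ∈ P (2 * R) c, Real.exp (s * occ v a) ≤ 2 ^ K R * Ge v s (2 * R) := by
      have h2 := Fe_le_Ge v s (2 * R) c
      have h3 := Npos (2 * R) c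
      rw [Fe, av, div_le_iff₀ h3, N_even] at h2
      push_cast at h2
      linarith
    have h0 : 0 ≤ ∑ b ∈ PW (2 * R) y, Real.exp (s * occ v b) :=
      sum_nonneg fun _ _ => (Real.exp_pos _).le
    calc ∑ a ∈ P (2 * R) c, ∑ b ∈ PW (2 * R) y, Real.exp (s * occ v (a ++ b))
        ≤ ∑ a ∈ P (2 * R) c, ∑ b ∈ PW (2 * R) y, Real.exp (s * v.length) *
            (Real.exp (s * occ v a) * Real.exp (s * occ v b)) := by
          apply sum_le_sum
          intro a _
          apply sum_le_sum
          intro b _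
          rw [← Real.exp_add, ← Real.exp_add]
          apply Real.exp_le_exp.2
          linarith [shift_pos (v := v) hs a b]
      _ = Real.exp (s * v.length) * ((∑ a ∈ P (2 * R) c, Real.exp (s * occ v a)) *
            ∑ b ∈ PW (2 * R) y, Real.exp (s * occ v b)) := by
          rw [sum_mul_sum, mul_sum]
          apply sum_congr rfl
          intro a _
          rw [mul_sum]
      _ ≤ Real.exp (s * v.length) * ((2 ^ K R * Ge v s (2 * R)) *
            ∑ b ∈ PW (2 * R) y, Real.exp (s * occ v b)) := by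
          apply mul_le_mul_of_nonneg_left _ (Real.exp_pos _).le
          exact mul_le_mul_of_nonneg_right h1 h0
      _ = (Real.exp (s * v.length) * (2 ^ K R * Ge v s (2 * R))) *
            ∑ b ∈ PW (2 * R) y, Real.exp (s * occ v b) := by ring
      _ ≤ _ := by
          apply mul_le_mul_of_nonneg_left ih
          have := Ge_pos v s (2 * R)
          positivity

open Classical in
/-- The exponential sum over the legal words of length `L`. -/
noncomputable def Z (v : Word) (s : ℝ) (L : ℕ) : ℝ :=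
  ∑ w ∈ (univ : Finset (Fin L → Bool)).filter (fun w => Legal (List.ofFn w)),
    Real.exp (s * occ v (List.ofFn w))

/-- The words of length `k`. -/
def Wk (k : ℕ) : Finset Word := (univ : Finset (Fin k → Bool)).image List.ofFn

theorem card_Wk (k : ℕ) : (Wk k).card = 2 ^ k := by
  rw [Wk, card_image_of_injective _ List.ofFn_injective]
  simp

theorem mem_Wk {k : ℕ} {y : Word} : y ∈ Wk k ↔ y.length = k := by
  rw [Wk, mem_image]
  constructor
  · rintro ⟨f, -, rfl⟩; simp
  · rintro rfl
    exact ⟨y.get, mem_univ _, List.ofFn_get y⟩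

theorem Z_le {v : Word} {s : ℝ} (hs : 0 ≤ s) (R L : ℕ) (hL : 2 ^ (2 * R) ≤ L) :
    Z v s L ≤ 2 ^ (2 * R) * (2 ^ (L / 2 ^ (2 * R) + 2 + 1) *
      (Real.exp (s * v.length) * (2 ^ K R * Ge v s (2 * R))) ^ (L / 2 ^ (2 * R) + 2)) := by
  classical
  set r := 2 * R with hr
  set n := L / 2 ^ r + 2 with hn
  set M := Real.exp (s * v.length) * (2 ^ K R * Ge v s r) with hM
  have hM1 : 1 ≤ M := by
    have h1 : 1 ≤ Real.exp (s * v.length) := Real.one_le_exp (by positivity)
    have h2 : (1 : ℝ) ≤ 2 ^ K R := one_le_pow₀ (by norm_num)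
    have h3 := one_le_Ge (v := v) hs r
    exact one_le_mul_of_one_le_of_one_le h1 (one_le_mul_of_one_le_of_one_le h2 h3)
  set I : Finset (ℕ × (Σ _ : Word, Word)) := range (2 ^ r) ×ˢ
    (((range (n + 1)).biUnion Wk).sigma (fun y => PW r y)) with hI
  set A := (univ : Finset (Fin L → Bool)).filter (fun w => Legal (List.ofFn w)) with hA
  have hex : ∀ w : Fin L → Bool, ∃ x : ℕ × (Σ _ : Word, Word), w ∈ A → x ∈ I ∧
      List.ofFn w = (x.2.2.drop x.1).take L := by
    intro w
    by_cases hw : w ∈ A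
    · rw [hA, mem_filter] at hw
      have hlen : (List.ofFn w).length = L := by simp
      obtain ⟨o, ho, y, hy, U, hU, he⟩ := legal_cover (r := r) hw.2 (by rw [hlen]; exact hL)
      rw [hlen] at hy he
      refine ⟨(o, ⟨y, U⟩), fun _ => ⟨?_, he⟩⟩
      rw [hI, mem_product, mem_sigma, mem_biUnion]
      refine ⟨mem_range.2 ho, ⟨y.length, mem_range.2 (by omega), mem_Wk.2 rfl⟩, hU⟩
    · exact ⟨(0, ⟨[], []⟩), fun h => absurd h hw⟩
  choose σ hσ using hex
  have hinj : Set.InjOn σ A := by
    intro w hw w' hw' h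
    have h1 := (hσ w hw).2
    have h2 := (hσ w' hw').2
    rw [h] at h1
    exact List.ofFn_injective (h1.trans h2.symm)
  calc Z v s L = ∑ w ∈ A, Real.exp (s * occ v (List.ofFn w)) := rfl
    _ ≤ ∑ w ∈ A, Real.exp (s * occ v (σ w).2.2) := by
        apply sum_le_sum
        intro w hw
        apply Real.exp_le_exp.2
        apply mul_le_mul_of_nonneg_left _ hs
        have h1 : List.ofFn w <:+: (σ w).2.2 := by
          rw [(hσ w hw).2]
          exact (List.take_prefix _ _).isInfix.trans (List.drop_suffix _ _).isInfix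
        exact_mod_cast occ_infix h1
    _ = ∑ x ∈ A.image σ, Real.exp (s * occ v x.2.2) := by
        rw [sum_image hinj]
    _ ≤ ∑ x ∈ I, Real.exp (s * occ v x.2.2) := by
        apply sum_le_sum_of_subset_of_nonneg
        · intro x hx
          obtain ⟨w, hw, rfl⟩ := mem_image.1 hx
          exact (hσ w hw).1
        · intro x _ _
          exact (Real.exp_pos _).le
    _ = 2 ^ r * ∑ y ∈ (range (n + 1)).biUnion Wk, ∑ U ∈ PW r y, Real.exp (s * occ v U) := by
        rw [hI, sum_product]
        simp only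
        rw [sum_const, card_range, nsmul_eq_mul, sum_sigma]
        push_cast
        rfl
    _ ≤ 2 ^ r * (2 ^ (n + 1) * M ^ n) := by
        apply mul_le_mul_of_nonneg_left _ (by positivity)
        calc ∑ y ∈ (range (n + 1)).biUnion Wk, ∑ U ∈ PW r y, Real.exp (s * occ v U)
            ≤ ∑ y ∈ (range (n + 1)).biUnion Wk, M ^ n := by
              apply sum_le_sum
              intro y hy
              rw [mem_biUnion] at hy
              obtain ⟨k, hk, hy⟩ := hy
              rw [mem_range] at hk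
              rw [mem_Wk] at hy
              refine (sum_PW_le hs R y).trans ?_
              exact pow_le_pow_right₀ hM1 (by omega)
          _ = (((range (n + 1)).biUnion Wk).card : ℝ) * M ^ n := by
              rw [sum_const, nsmul_eq_mul]
          _ ≤ 2 ^ (n + 1) * M ^ n := by
              apply mul_le_mul_of_nonneg_right _ (by positivity)
              have h1 : ((range (n + 1)).biUnion Wk).card ≤ 2 ^ (n + 1) := by
                refine card_biUnion_le.trans ?_
                simp_rw [card_Wk]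
                have := Nat.geomSum_eq (m := 2) (by norm_num) (n + 1)
                rw [this]
                simp
              exact_mod_cast h1

end Q43.PD
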