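import Pool.Agent.Q43.PD.Meas

/-!
# The entropy bound and uniqueness
-/

set_option autoImplicit false
set_option linter.unusedVariables false

namespace Q43.PD

open Finset Filter Topology MeasureTheory

variable {ν : Measure (ℤ → Bool)}

theorem blockH_nonneg (h : IsInv ν) (L : ℕ) : 0 ≤ blockH ν L := by
  have := h.prob
  apply sum_nonneg
  intro w _
  exact Real.negMulLog_nonneg measureReal_nonneg measureReal_le_one

/-- The bound for long blocks. -/
theorem block_le (h : IsInv ν) (v : Word) {s : ℝ} (hs : 0 ≤ s) (R L : ℕ) (hL : 2 ^ (2 * R) ≤ L) :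
    blockH ν L ≤ ((2 * R : ℕ) + 1) * Real.log 2 + (L / 2 ^ (2 * R) + 2) *
      (Real.log 2 + (K R * Real.log 2 + (Real.log (Ge v s (2 * R)) + s * v.length))) -
        s * ((L - v.length) * ν.real (cyl v)) := by
  have := h.prob
  obtain ⟨hZ, h1⟩ := gibbs h v s hs L
  have h2 := Z_le (v := v) hs R L hL
  set r := 2 * R with hr
  have hG := Ge_pos v s r
  have hlog2 : 0 < Real.log 2 := Real.log_pos (by norm_num)
  have h3 : Real.log (Z v s L) ≤ r * Real.log 2 + ((L / 2 ^ r + 2 + 1 : ℕ) * Real.log 2 +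
      ((L / 2 ^ r + 2 : ℕ) : ℝ) * (s * v.length + (K R * Real.log 2 + Real.log (Ge v s r)))) := by
    refine (Real.log_le_log hZ h2).trans (le_of_eq ?_)
    rw [Real.log_mul (by positivity) (by positivity), Real.log_mul (by positivity) (by positivity),
      Real.log_pow, Real.log_pow, Real.log_pow, Real.log_mul (by positivity) (by positivity),
      Real.log_mul (by positivity) (by positivity), Real.log_exp, Real.log_pow]
  have h4 : ((L / 2 ^ r : ℕ) : ℝ) ≤ L / 2 ^ r := by
    have := @Nat.cast_div_le ℝ _ _ _ L (2 ^ r)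
    push_cast at this
    exact this
  set B := Real.log 2 + (K R * Real.log 2 + (Real.log (Ge v s r) + s * v.length)) with hB
  have hB0 : 0 ≤ B := by
    have h5 : 0 ≤ Real.log (Ge v s r) := Real.log_nonneg (one_le_Ge hs r)
    have h6 : 0 ≤ s * v.length := by positivity
    have h7 : 0 ≤ (K R : ℝ) * Real.log 2 := by positivity
    linarith
  have h5 : r * Real.log 2 + ((L / 2 ^ r + 2 + 1 : ℕ) * Real.log 2 +
      ((L / 2 ^ r + 2 : ℕ) : ℝ) * (s * v.length + (K R * Real.log 2 + Real.log (Ge v s r)))) =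
      (r + 1) * Real.log 2 + (((L / 2 ^ r : ℕ) : ℝ) + 2) * B := by
    rw [hB]; push_cast; ring
  have h6 : (((L / 2 ^ r : ℕ) : ℝ) + 2) * B ≤ ((L : ℝ) / 2 ^ r + 2) * B :=
    mul_le_mul_of_nonneg_right (by linarith) hB0
  have h7 : s * (((L : ℝ) - v.length) * ν.real (cyl v)) ≤
      s * (((L - v.length : ℕ) : ℝ) * ν.real (cyl v)) := by
    apply mul_le_mul_of_nonneg_left _ hs
    apply mul_le_mul_of_nonneg_right _ measureReal_nonneg
    have h8 : (L : ℝ) ≤ ((L - v.length : ℕ) : ℝ) + v.length := by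
      exact_mod_cast (by omega : L ≤ (L - v.length) + v.length)
    linarith
  linarith

theorem K_real (R : ℕ) : (K R : ℝ) ≤ 2 / 3 * 2 ^ (2 * R) := by
  have h := K_eq R
  have h2 : (3 * K R + 2 : ℝ) = 2 * 4 ^ R := by exact_mod_cast h
  have h3 : (2 : ℝ) ^ (2 * R) = 4 ^ R := by rw [pow_mul]; norm_num
  rw [h3]
  linarith

theorem entropy_le_of (h : IsInv ν) {g : ℕ → ℝ} {c : ℝ} (hg : Tendsto g atTop (𝓝 c))
    (hle : ∀ᶠ L in atTop, blockH ν L / L ≤ g L) : entropy ν ≤ c := by
  rw [entropy, ← hg.limsup_eq]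
  refine limsup_le_limsup hle ?_ hg.isBoundedUnder_le
  apply isCoboundedUnder_le_of_le atTop (x := 0)
  intro L
  exact div_nonneg (blockH_nonneg h L) (Nat.cast_nonneg _)

/-- The main inequality, at a fixed level. -/
theorem entropy_level (h : IsInv ν) (v : Word) {s : ℝ} (hs : 0 ≤ s) (R : ℕ) :
    entropy ν + s * ν.real (cyl v) ≤ (Real.log 2 + (K R * Real.log 2 +
      (Real.log (Ge v s (2 * R)) + s * v.length))) / 2 ^ (2 * R) := by
  set B := Real.log 2 + (K R * Real.log 2 + (Real.log (Ge v s (2 * R)) + s * v.length)) with hB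
  set p := ν.real (cyl v) with hp
  set q : ℝ := 2 ^ (2 * R) with hq
  have hqpos : 0 < q := by positivity
  have hinv : Tendsto (fun L : ℕ => ((L : ℝ))⁻¹) atTop (𝓝 0) := tendsto_inv_atTop_nhds_zero_nat
  have hg : Tendsto (fun L : ℕ => ((((2 * R : ℕ) : ℝ) + 1) * Real.log 2 + 2 * B + s * (v.length * p))
      * ((L : ℝ))⁻¹ + (B / q - s * p)) atTop (𝓝 (B / q - s * p)) := by
    have := (hinv.const_mul ((((2 * R : ℕ) : ℝ) + 1) * Real.log 2 + 2 * B +
      s * (v.length * p))).add_const (B / q - s * p)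
    rwa [mul_zero, zero_add] at this
  have h1 := entropy_le_of h hg (by
    filter_upwards [eventually_ge_atTop (2 ^ (2 * R))] with L hL
    have h2 := block_le h v hs R L hL
    rw [← hB, ← hp, ← hq] at h2
    have hL0 : (0 : ℝ) < L := by
      have : 0 < 2 ^ (2 * R) := by positivity
      exact_mod_cast lt_of_lt_of_le this hL
    rw [div_le_iff₀ hL0]
    refine h2.trans (le_of_eq ?_)
    field_simp
    ring)
  linarith

/-- The main inequality. -/
theorem entropy_main (h : IsInv ν) (v : Word) {s : ℝ} (hs : 0 ≤ s) {r₀ : ℕ}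
    (hs1 : s * 2 ^ r₀ ≤ 1) :
    entropy ν + s * ν.real (cyl v) ≤ 2 / 3 * Real.log 2 + (s * xs v r₀ + s ^ 2 * 2 ^ r₀) := by
  have hlog2 : 0 < Real.log 2 := Real.log_pos (by norm_num)
  have hlim : Tendsto (fun R : ℕ => Real.log 2 * (1 / 4 : ℝ) ^ R + (2 / 3 * Real.log 2 +
      (s * xs v r₀ + s ^ 2 * 2 ^ r₀))) atTop (𝓝 (2 / 3 * Real.log 2 +
      (s * xs v r₀ + s ^ 2 * 2 ^ r₀))) := by
    have h1 : Tendsto (fun R : ℕ => (1 / 4 : ℝ) ^ R) atTop (𝓝 0) :=
      tendsto_pow_atTop_nhds_zero_of_lt_one (by norm_num) (by norm_num)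
    have := (h1.const_mul (Real.log 2)).add_const (2 / 3 * Real.log 2 +
      (s * xs v r₀ + s ^ 2 * 2 ^ r₀))
    rwa [mul_zero, zero_add] at this
  refine ge_of_tendsto hlim ?_
  filter_upwards [eventually_ge_atTop r₀] with R hR
  refine (entropy_level h v hs R).trans ?_
  have h2 := log_Ge_le (v := v) hs (r := 2 * R) (by omega : r₀ ≤ 2 * R) hs1
  have h3 := K_real R
  have h4 : (2 : ℝ) ^ (2 * R) = 4 ^ R := by rw [pow_mul]; norm_num
  have h5 : (0 : ℝ) < 2 ^ (2 * R) := by positivity
  rw [add_div, add_div]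
  have h6 : Real.log 2 / 2 ^ (2 * R) = Real.log 2 * (1 / 4) ^ R := by
    rw [h4, one_div, inv_pow]; rfl
  have h7 : (K R : ℝ) * Real.log 2 / 2 ^ (2 * R) ≤ 2 / 3 * Real.log 2 := by
    rw [div_le_iff₀ h5]
    nlinarith
  rw [h6]
  linarith

theorem entropy_le (h : IsInv ν) : entropy ν ≤ 2 / 3 * Real.log 2 := by
  have := entropy_main h [] (s := 0) le_rfl (r₀ := 0) (by simp)
  simpa using this

theorem freq_le (h : IsInv ν) (he : 2 / 3 * Real.log 2 ≤ entropy ν) (v : Word) :
    ν.real (cyl v) ≤ Lf v := by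
  refine ge_of_tendsto' (xs_tendsto v) fun r₀ => ?_
  have h4 : (0 : ℝ) < 2 ^ r₀ := by positivity
  -- let `s` tend to `0`
  have key : ∀ s : ℝ, 0 < s → s ≤ 1 / 2 ^ r₀ → ν.real (cyl v) ≤ xs v r₀ + s * 2 ^ r₀ := by
    intro s hs hs1
    have h1 := entropy_main h v hs.le (r₀ := r₀) (by rwa [le_div_iff₀ h4] at hs1)
    have h2 : s * ν.real (cyl v) ≤ s * (xs v r₀ + s * 2 ^ r₀) := by nlinarith
    exact le_of_mul_le_mul_left h2 hs
  by_contra hcon
  push Not at hcon
  set δ := ν.real (cyl v) - xs v r₀ with hδ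
  have hδ0 : 0 < δ := by linarith
  have h5 := key (min (1 / 2 ^ r₀) (δ / (2 * 2 ^ r₀))) (lt_min (by positivity) (by positivity))
    (min_le_left _ _)
  have h6 : min (1 / 2 ^ r₀) (δ / (2 * 2 ^ r₀)) * 2 ^ r₀ ≤ δ / (2 * 2 ^ r₀) * 2 ^ r₀ :=
    mul_le_mul_of_nonneg_right (min_le_right _ _) h4.le
  have h7 : δ / (2 * 2 ^ r₀) * 2 ^ r₀ = δ / 2 := by field_simp
  linarith

/-- A measure of maximal entropy has the limit frequencies. -/
theorem freq_eq (h : IsInv ν) (he : 2 / 3 * Real.log 2 ≤ entropy ν) (v : Word) :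
    ν.real (cyl v) = Lf v := by
  have := h.prob
  set k := v.length with hk
  have h1 : ∑ w : Fin k → Bool, (Lf (List.ofFn w) - ν.real (cyl (List.ofFn w))) ≤ 0 := by
    rw [sum_sub_distrib, sum_cyl_one]
    linarith [sum_Lf_le k]
  have h2 : ∀ w ∈ (univ : Finset (Fin k → Bool)), 0 ≤ Lf (List.ofFn w) -
      ν.real (cyl (List.ofFn w)) := fun w _ => sub_nonneg.2 (freq_le h he _)
  have h3 := (sum_eq_zero_iff_of_nonneg h2).1 (le_antisymm h1 (sum_nonneg h2)) v.get (mem_univ _)
  rw [List.ofFn_get] at h3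
  linarith

/-- The window cylinders. -/
def wcyl : Set (Set (ℤ → Bool)) :=
  {A | ∃ (n : ℕ) (v : Word), A = {x | word x (-(n : ℤ)) (2 * n) = v}}

theorem word_mono {x y : ℤ → Bool} {n m : ℕ} (h : n ≤ m)
    (hxy : word x (-(m : ℤ)) (2 * m) = word y (-(m : ℤ)) (2 * m)) :
    word x (-(n : ℤ)) (2 * n) = word y (-(n : ℤ)) (2 * n) := by
  rw [word, word, List.ofFn_inj] at hxy ⊢
  funext k
  have h1 := congrFun hxy ⟨(m - n) + k, by have := k.2; omega⟩
  simp only at h1
  have h2 : (-(m : ℤ) + ((m - n + (k : ℕ) : ℕ) : ℤ)) = -(n : ℤ) + (k : ℕ) := by omega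
  rw [h2] at h1
  exact h1

theorem isPiSystem_wcyl : IsPiSystem wcyl := by
  rintro _ ⟨n, v, rfl⟩ _ ⟨m, w, rfl⟩ ⟨z, hz1, hz2⟩
  rw [Set.mem_ofPred_eq] at hz1 hz2
  rcases le_total n m with h | h
  · refine ⟨m, w, ?_⟩
    ext x
    simp only [Set.mem_inter_iff, Set.mem_ofPred_eq]
    constructor
    · exact fun hx => hx.2
    · intro hx
      exact ⟨(word_mono h (hx.trans hz2.symm)).trans hz1, hx⟩
  · refine ⟨n, v, ?_⟩
    ext x
    simp only [Set.mem_inter_iff, Set.mem_ofPred_eq]
    constructor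
    · exact fun hx => hx.1
    · intro hx
      exact ⟨hx, (word_mono h (hx.trans hz1.symm)).trans hz2⟩

theorem generate_wcyl : (inferInstance : MeasurableSpace (ℤ → Bool)) =
    MeasurableSpace.generateFrom wcyl := by
  apply le_antisymm
  · apply iSup_le
    intro j
    rw [← measurable_iff_comap_le]
    have : ∀ b : Bool, MeasurableSet[MeasurableSpace.generateFrom wcyl]
        ((fun x : ℤ → Bool => x j) ⁻¹' {b}) := by
      intro b
      set n := j.natAbs + 1 with hn
      have hj : (j + n).toNat < 2 * n := by omega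
      have h1 : (fun x : ℤ → Bool => x j) ⁻¹' {b} =
          ⋃ w ∈ {w : Fin (2 * n) → Bool | w ⟨(j + n).toNat, hj⟩ = b},
            {x | word x (-(n : ℤ)) (2 * n) = List.ofFn w} := by
        ext x
        simp only [Set.mem_preimage, Set.mem_singleton_iff, Set.mem_iUnion, Set.mem_ofPred_eq,
          exists_prop]
        have hx : ∀ w : Fin (2 * n) → Bool, word x (-(n : ℤ)) (2 * n) = List.ofFn w →
            w ⟨(j + n).toNat, hj⟩ = x j := by
          intro w hw
          rw [word, List.ofFn_inj] at hw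
          have := congrFun hw ⟨(j + n).toNat, hj⟩
          simp only at this
          rw [← this]
          congr 1
          omega
        constructor
        · intro hxb
          refine ⟨fun k => x (-(n : ℤ) + (k : ℕ)), ?_, rfl⟩
          have := hx (fun k => x (-(n : ℤ) + (k : ℕ))) rfl
          exact this.trans hxb
        · rintro ⟨w, hw, hw2⟩
          rw [← hx w hw2]
          exact hw
      rw [h1]
      apply MeasurableSet.biUnion (Set.to_countable _)
      intro w _
      exact MeasurableSpace.measurableSet_generateFrom ⟨n, _, rfl⟩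
    exact @measurable_to_countable' _ _ _ _ (MeasurableSpace.generateFrom wcyl) _ this
  · apply MeasurableSpace.generateFrom_le
    rintro _ ⟨n, v, rfl⟩
    exact measurable_word _ _ _

/-- Invariant measures with the same cylinder masses are equal. -/
theorem ext_of_cyl {μ ν : Measure (ℤ → Bool)} (hμ : IsInv μ) (hν : IsInv ν)
    (h : ∀ v : Word, μ.real (cyl v) = ν.real (cyl v)) : μ = ν := by
  have := hμ.prob
  have := hν.prob
  apply ext_of_generate_finite wcyl generate_wcyl isPiSystem_wcyl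
  · rintro _ ⟨n, v, rfl⟩
    rw [inv_word hμ, inv_word hν]
    by_cases hv : v.length = 2 * n
    · have h1 : {x : ℤ → Bool | word x 0 (2 * n) = v} = cyl v := by rw [← hv]; rfl
      rw [h1]
      have h2 := h v
      rw [measureReal_def, measureReal_def, ENNReal.toReal_eq_toReal_iff' (measure_ne_top _ _)
        (measure_ne_top _ _)] at h2
      exact h2
    · have h1 : {x : ℤ → Bool | word x 0 (2 * n) = v} = ∅ := by
        rw [Set.eq_empty_iff_forall_notMem]
        intro x hx
        apply hv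
        rw [← show word x 0 (2 * n) = v from hx, length_word]
      rw [h1, measure_empty, measure_empty]
  · rw [measure_univ, measure_univ]

/-- At most one measure of maximal entropy. -/
theorem unique {μ ν : Measure (ℤ → Bool)} (hμ : IsInv μ) (hν : IsInv ν)
    (h1 : 2 / 3 * Real.log 2 ≤ entropy μ) (h2 : 2 / 3 * Real.log 2 ≤ entropy ν) : μ = ν :=
  ext_of_cyl hμ hν fun v => (freq_eq hμ h1 v).trans (freq_eq hν h2 v).symm

end Q43.PD
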