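import Pool.Agent.Q43.PD.Defs

/-!
# Inflation words
-/

set_option autoImplicit false

namespace Q43.PD

open Finset

theorem theta_append {w w' u : Word} : u ∈ theta (w ++ w') ↔
    ∃ u1 ∈ theta w, ∃ u2 ∈ theta w', u = u1 ++ u2 := by
  induction w generalizing u with
  | nil => simp [theta]
  | cons c w ih =>
    cases c
    · simp only [List.cons_append, theta, Set.mem_ofPred_eq]
      constructor
      · rintro ⟨x, hx, rfl⟩
        obtain ⟨u1, h1, u2, h2, rfl⟩ := ih.1 hx
        exact ⟨_, ⟨u1, h1, rfl⟩, u2, h2, rfl⟩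
      · rintro ⟨_, ⟨u1, h1, rfl⟩, u2, h2, rfl⟩
        exact ⟨_, ih.2 ⟨u1, h1, u2, h2, rfl⟩, rfl⟩
    · simp only [List.cons_append, theta, Set.mem_ofPred_eq]
      constructor
      · rintro ⟨x, hx, h⟩
        obtain ⟨u1, h1, u2, h2, rfl⟩ := ih.1 hx
        rcases h with rfl | rfl
        · exact ⟨_, ⟨u1, h1, Or.inl rfl⟩, u2, h2, rfl⟩
        · exact ⟨_, ⟨u1, h1, Or.inr rfl⟩, u2, h2, rfl⟩
      · rintro ⟨_, ⟨u1, h1, h⟩, u2, h2, rfl⟩
        refine ⟨_, ih.2 ⟨u1, h1, u2, h2, rfl⟩, ?_⟩
        rcases h with rfl | rfl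
        · exact Or.inl rfl
        · exact Or.inr rfl

theorem thetaN_append {n : ℕ} {w w' u : Word} : u ∈ thetaN n (w ++ w') ↔
    ∃ u1 ∈ thetaN n w, ∃ u2 ∈ thetaN n w', u = u1 ++ u2 := by
  induction n generalizing u with
  | zero => simp [thetaN]
  | succ n ih =>
    simp only [thetaN, Set.mem_ofPred_eq]
    constructor
    · rintro ⟨v, hv, hu⟩
      obtain ⟨v1, h1, v2, h2, rfl⟩ := ih.1 hv
      obtain ⟨u1, h3, u2, h4, rfl⟩ := theta_append.1 hu
      exact ⟨u1, ⟨v1, h1, h3⟩, u2, ⟨v2, h2, h4⟩, rfl⟩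
    · rintro ⟨u1, ⟨v1, h1, h3⟩, u2, ⟨v2, h2, h4⟩, rfl⟩
      exact ⟨v1 ++ v2, ih.2 ⟨v1, h1, v2, h2, rfl⟩, theta_append.2 ⟨u1, h3, u2, h4, rfl⟩⟩

theorem thetaN_add {m n : ℕ} {w u : Word} : u ∈ thetaN (m + n) w ↔
    ∃ v ∈ thetaN m w, u ∈ thetaN n v := by
  induction n generalizing u with
  | zero => simp [thetaN]
  | succ n ih =>
    rw [← add_assoc]
    simp only [thetaN, Set.mem_ofPred_eq]
    constructor
    · rintro ⟨v, hv, hu⟩
      obtain ⟨x, hx, hv⟩ := ih.1 hv
      exact ⟨x, hx, v, hv, hu⟩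
    · rintro ⟨x, hx, v, hv, hu⟩
      exact ⟨v, ih.2 ⟨x, hx, hv⟩, hu⟩

/-- The words in `θ^n(c)`. -/
def P : ℕ → Bool → Finset Word
  | 0, c => {[c]}
  | n + 1, true => image₂ (· ++ ·) (P n true) (P n false) ∪ image₂ (· ++ ·) (P n false) (P n true)
  | n + 1, false => image₂ (· ++ ·) (P n true) (P n true)

theorem theta_true {v : Word} : v ∈ theta [true] ↔ v = [true] ++ [false] ∨ v = [false] ++ [true] := by
  simp [theta]

theorem theta_false {v : Word} : v ∈ theta [false] ↔ v = [true] ++ [true] := by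
  simp [theta]

theorem thetaN_one {w u : Word} : u ∈ thetaN 1 w ↔ u ∈ theta w := by simp [thetaN]

theorem mem_P {n : ℕ} {c : Bool} {u : Word} : u ∈ P n c ↔ u ∈ thetaN n [c] := by
  induction n generalizing c u with
  | zero => simp [P, thetaN]
  | succ n ih =>
    rw [add_comm n 1, thetaN_add, add_comm 1 n]
    cases c
    · simp only [thetaN_one, theta_false, P, mem_image₂]
      constructor
      · rintro ⟨u1, h1, u2, h2, rfl⟩
        exact ⟨_, rfl, thetaN_append.2 ⟨u1, ih.1 h1, u2, ih.1 h2, rfl⟩⟩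
      · rintro ⟨_, rfl, h⟩
        obtain ⟨u1, h1, u2, h2, rfl⟩ := thetaN_append.1 h
        exact ⟨u1, ih.2 h1, u2, ih.2 h2, rfl⟩
    · simp only [thetaN_one, theta_true, P, mem_union, mem_image₂]
      constructor
      · rintro (⟨u1, h1, u2, h2, rfl⟩ | ⟨u1, h1, u2, h2, rfl⟩)
        · exact ⟨_, Or.inl rfl, thetaN_append.2 ⟨u1, ih.1 h1, u2, ih.1 h2, rfl⟩⟩
        · exact ⟨_, Or.inr rfl, thetaN_append.2 ⟨u1, ih.1 h1, u2, ih.1 h2, rfl⟩⟩
      · rintro ⟨_, rfl | rfl, h⟩
        · obtain ⟨u1, h1, u2, h2, rfl⟩ := thetaN_append.1 h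
          exact Or.inl ⟨u1, ih.2 h1, u2, ih.2 h2, rfl⟩
        · obtain ⟨u1, h1, u2, h2, rfl⟩ := thetaN_append.1 h
          exact Or.inr ⟨u1, ih.2 h1, u2, ih.2 h2, rfl⟩

theorem length_P {n : ℕ} {c : Bool} {u : Word} (h : u ∈ P n c) : u.length = 2 ^ n := by
  induction n generalizing c u with
  | zero => simp [P] at h; simp [h]
  | succ n ih =>
    cases c
    · simp only [P, mem_image₂] at h
      obtain ⟨u1, h1, u2, h2, rfl⟩ := h
      rw [List.length_append, ih h1, ih h2]; ring
    · simp only [P, mem_union, mem_image₂] at h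
      obtain ⟨u1, h1, u2, h2, rfl⟩ | ⟨u1, h1, u2, h2, rfl⟩ := h
      · rw [List.length_append, ih h1, ih h2]; ring
      · rw [List.length_append, ih h1, ih h2]; ring

/-- The number of letters `a` in the words of `θ^n(c)`. -/
def ca : ℕ → Bool → ℕ
  | 0, true => 1
  | 0, false => 0
  | n + 1, true => ca n true + ca n false
  | n + 1, false => 2 * ca n true

theorem count_P {n : ℕ} {c : Bool} {u : Word} (h : u ∈ P n c) : u.count true = ca n c := by
  induction n generalizing c u with
  | zero => cases c <;> simp [P] at h <;> simp [h, ca]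
  | succ n ih =>
    cases c
    · simp only [P, mem_image₂] at h
      obtain ⟨u1, h1, u2, h2, rfl⟩ := h
      rw [List.count_append, ih h1, ih h2, ca]; ring
    · simp only [P, mem_union, mem_image₂] at h
      obtain ⟨u1, h1, u2, h2, rfl⟩ | ⟨u1, h1, u2, h2, rfl⟩ := h
      · rw [List.count_append, ih h1, ih h2, ca]
      · rw [List.count_append, ih h1, ih h2, ca]; ring

theorem ca_ne (n : ℕ) : ca n true ≠ ca n false := by
  have h : (ca n true : ℤ) - ca n false = (-1) ^ n := by
    induction n with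
    | zero => simp [ca]
    | succ n ih =>
      simp only [ca]
      push_cast
      rw [pow_succ, ← ih]; ring
  intro he
  rw [he, sub_self] at h
  exact absurd h.symm (pow_ne_zero _ (by norm_num))

theorem disj_P {n : ℕ} {u : Word} (h : u ∈ P n true) (h' : u ∈ P n false) : False :=
  ca_ne n ((count_P h).symm.trans (count_P h'))

/-- The number of words in `θ^n(c)`. -/
def N : ℕ → Bool → ℕ
  | 0, _ => 1
  | n + 1, true => 2 * (N n true * N n false)
  | n + 1, false => N n true * N n true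

theorem N_pos (n : ℕ) (c : Bool) : 0 < N n c := by
  induction n generalizing c with
  | zero => simp [N]
  | succ n ih =>
    cases c
    · simp only [N]; exact Nat.mul_pos (ih _) (ih _)
    · simp only [N]; exact Nat.mul_pos (by norm_num) (Nat.mul_pos (ih _) (ih _))

theorem append_injOn {A B : Finset Word} {k : ℕ} (hA : ∀ u ∈ A, u.length = k) :
    Set.InjOn (fun p : Word × Word => p.1 ++ p.2) (A ×ˢ B : Finset (Word × Word)) := by
  rintro ⟨a, b⟩ hp ⟨a', b'⟩ hq h
  rw [mem_coe, mem_product] at hp hq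
  obtain ⟨h1, h2⟩ := List.append_inj h ((hA a hp.1).trans (hA a' hq.1).symm)
  exact Prod.ext h1 h2

theorem sum_image₂ {A B : Finset Word} {k : ℕ} (hA : ∀ u ∈ A, u.length = k) {M : Type*}
    [AddCommMonoid M] (f : Word → M) :
    ∑ x ∈ image₂ (· ++ ·) A B, f x = ∑ a ∈ A, ∑ b ∈ B, f (a ++ b) := by
  rw [← image_uncurry_product, sum_image, sum_product]
  · rfl
  · exact append_injOn hA

theorem sum_P_false (n : ℕ) {M : Type*} [AddCommMonoid M] (f : Word → M) :
    ∑ x ∈ P (n + 1) false, f x = ∑ a ∈ P n true, ∑ b ∈ P n true, f (a ++ b) := by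
  rw [P, sum_image₂ (fun u hu => length_P hu)]

theorem sum_P_true (n : ℕ) {M : Type*} [AddCommMonoid M] (f : Word → M) :
    ∑ x ∈ P (n + 1) true, f x = ∑ a ∈ P n true, ∑ b ∈ P n false, f (a ++ b) +
      ∑ a ∈ P n false, ∑ b ∈ P n true, f (a ++ b) := by
  rw [P, sum_union, sum_image₂ (fun u hu => length_P hu), sum_image₂ (fun u hu => length_P hu)]
  rw [disjoint_left]
  intro x hx hx'
  rw [mem_image₂] at hx hx'
  obtain ⟨a, ha, b, hb, rfl⟩ := hx
  obtain ⟨a', ha', b', hb', h⟩ := hx'
  obtain ⟨h1, -⟩ := List.append_inj h ((length_P ha').trans (length_P ha).symm)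
  subst h1
  exact disj_P ha ha'

theorem card_P (n : ℕ) (c : Bool) : (P n c).card = N n c := by
  induction n generalizing c with
  | zero => simp [P, N]
  | succ n ih =>
    rw [card_eq_sum_ones]
    cases c
    · rw [sum_P_false]
      simp [N, ih]
    · rw [sum_P_true]
      simp [N, ih]
      ring

/-- The exponent of `N`. -/
def K : ℕ → ℕ
  | 0 => 0
  | n + 1 => 4 * K n + 2

theorem N_even (R : ℕ) (c : Bool) : N (2 * R) c = 2 ^ K R := by
  induction R generalizing c with
  | zero => simp [N, K]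
  | succ R ih =>
    have h : 2 * (R + 1) = 2 * R + 1 + 1 := by ring
    rw [h]
    cases c
    · simp only [N, ih, K]
      ring
    · simp only [N, ih, K]
      ring

theorem K_eq (R : ℕ) : 3 * K R + 2 = 2 * 4 ^ R := by
  induction R with
  | zero => simp [K]
  | succ R ih => rw [K, pow_succ]; omega

/-- Concatenations of inflation words. -/
def PW (r : ℕ) : Word → Finset Word
  | [] => {[]}
  | c :: y => image₂ (· ++ ·) (P r c) (PW r y)

theorem thetaN_nil {r : ℕ} {u : Word} : u ∈ thetaN r [] ↔ u = [] := by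
  induction r generalizing u with
  | zero => simp [thetaN]
  | succ r ih =>
    simp only [thetaN, Set.mem_ofPred_eq]
    constructor
    · rintro ⟨v, hv, hu⟩
      rw [ih.1 hv] at hu
      simpa [theta] using hu
    · rintro rfl
      exact ⟨[], ih.2 rfl, by simp [theta]⟩

theorem mem_PW {r : ℕ} {y u : Word} : u ∈ PW r y ↔ u ∈ thetaN r y := by
  induction y generalizing u with
  | nil => rw [thetaN_nil]; simp [PW]
  | cons c y ih =>
    have h : c :: y = [c] ++ y := rfl
    rw [h, thetaN_append]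
    simp only [List.singleton_append, PW, mem_image₂]
    constructor
    · rintro ⟨a, ha, b, hb, rfl⟩
      exact ⟨a, mem_P.1 ha, b, ih.1 hb, rfl⟩
    · rintro ⟨a, ha, b, hb, rfl⟩
      exact ⟨a, mem_P.2 ha, b, ih.2 hb, rfl⟩

theorem length_PW {r : ℕ} {y u : Word} (h : u ∈ PW r y) : u.length = y.length * 2 ^ r := by
  induction y generalizing u with
  | nil => simp [PW] at h; simp [h]
  | cons c y ih =>
    simp only [PW, mem_image₂] at h
    obtain ⟨a, ha, b, hb, rfl⟩ := h
    rw [List.length_append, length_P ha, ih hb, List.length_cons]; ring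

theorem drop_PW {r : ℕ} {y u : Word} (h : u ∈ PW r y) (j : ℕ) :
    u.drop (j * 2 ^ r) ∈ PW r (y.drop j) := by
  induction j generalizing y u with
  | zero => simpa using h
  | succ j ih =>
    cases y with
    | nil => simp [PW] at h; simp [h, PW]
    | cons c y =>
      simp only [PW, mem_image₂] at h
      obtain ⟨a, ha, b, hb, rfl⟩ := h
      rw [List.drop_succ_cons]
      have h1 : (j + 1) * 2 ^ r = a.length + j * 2 ^ r := by rw [length_P ha]; ring
      rw [h1, List.drop_append, List.drop_eq_nil_of_le (as := a) (Nat.le_add_right _ _),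
        List.nil_append, Nat.add_sub_cancel_left]
      exact ih hb

theorem take_PW {r : ℕ} {y u : Word} (h : u ∈ PW r y) (j : ℕ) :
    u.take (j * 2 ^ r) ∈ PW r (y.take j) := by
  induction j generalizing y u with
  | zero => simp [PW]
  | succ j ih =>
    cases y with
    | nil => simp [PW] at h; simp [h, PW]
    | cons c y =>
      simp only [PW, mem_image₂] at h
      obtain ⟨a, ha, b, hb, rfl⟩ := h
      rw [List.take_succ_cons]
      have h1 : (j + 1) * 2 ^ r = a.length + j * 2 ^ r := by rw [length_P ha]; ring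
      rw [h1, List.take_length_add_append]
      simp only [PW, mem_image₂]
      exact ⟨a, ha, _, ih hb, rfl⟩

end Q43.PD
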